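import Pool.Agent.N912.PM.Out

/-!
Project PM (helper912), part 10: pairs of factors in general windows, and the subgroup of the classes
congruent to `1` modulo `4`.
-/

set_option autoImplicit false

namespace Pool.Agent.N912.PM

open Finset Filter
open Pool.Agent.W78.GA (Qd nm)
open Pool.Agent.W78.EG
open Pool.Agent.W251.EG
open Pool.Agent.W251.EX (Sqp tt sum_null)
open Pool.Agent.V11296.CV (cv F_mod F_cop)

open scoped Classical in
theorem null_scale {P : ℕ → Prop} {S : ℕ} (hS : 1 ≤ S)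
    (h : Tendsto (fun Z : ℕ => (∑ X ∈ (Icc 1 Z).filter P, 1 / (X : ℝ)) / Real.log Z) atTop
      (nhds 0)) :
    Tendsto (fun Z : ℕ => (∑ X ∈ (Icc 1 Z).filter (fun X => P (S * X)), 1 / (X : ℝ)) /
      Real.log Z) atTop (nhds 0) := by
  have hS0 : (0 : ℝ) < S := by exact_mod_cast hS
  have h1 : Tendsto (fun Z : ℕ => S * Z) atTop atTop :=
    tendsto_id.const_mul_atTop' (by omega)
  have h2 := (h.comp h1).const_mul (2 * (S : ℝ))
  rw [mul_zero] at h2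
  refine squeeze_zero' ?_ ?_ h2
  · filter_upwards with Z
    refine div_nonneg (sum_nonneg fun X _ => by positivity) (Real.log_natCast_nonneg Z)
  · filter_upwards [eventually_ge_atTop (max S 2)] with Z hZ
    have hZS : S ≤ Z := (le_max_left _ _).trans hZ
    have hZ2 : 2 ≤ Z := (le_max_right _ _).trans hZ
    have hZ0 : (0 : ℝ) < Z := by
      have : 0 < Z := by omega
      exact_mod_cast this
    have hl : 0 < Real.log Z := Real.log_pos (by exact_mod_cast hZ2)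
    have hle : Real.log ((S * Z : ℕ) : ℝ) ≤ 2 * Real.log Z := by
      push_cast
      rw [Real.log_mul hS0.ne' hZ0.ne']
      have : Real.log S ≤ Real.log Z := Real.log_le_log hS0 (by exact_mod_cast hZS)
      linarith
    have hl2 : 0 < Real.log ((S * Z : ℕ) : ℝ) := by
      refine Real.log_pos ?_
      have : 1 < S * Z := by nlinarith
      exact_mod_cast this
    have hA : ∑ X ∈ (Icc 1 Z).filter (fun X => P (S * X)), 1 / (X : ℝ) ≤
        S * ∑ Y ∈ (Icc 1 (S * Z)).filter P, 1 / (Y : ℝ) := by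
      have e1 : ∑ X ∈ (Icc 1 Z).filter (fun X => P (S * X)), 1 / (X : ℝ) =
          S * ∑ Y ∈ ((Icc 1 Z).filter (fun X => P (S * X))).image (fun X => S * X),
            1 / (Y : ℝ) := by
        rw [sum_image, mul_sum]
        · refine sum_congr rfl fun X hX => ?_
          have hX0 : (0 : ℝ) < X := by
            have := (mem_Icc.1 (mem_filter.1 hX).1).1
            exact_mod_cast this
          push_cast
          field_simp
        · intro x _ y _ hxy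
          exact Nat.eq_of_mul_eq_mul_left (by omega) hxy
      rw [e1]
      refine mul_le_mul_of_nonneg_left ?_ hS0.le
      refine sum_le_sum_of_subset_of_nonneg ?_ fun _ _ _ => by positivity
      intro Y hY
      obtain ⟨X, hX, rfl⟩ := mem_image.1 hY
      rw [mem_filter, mem_Icc] at hX ⊢
      exact ⟨⟨Nat.mul_pos hS hX.1.1, Nat.mul_le_mul_left _ hX.1.2⟩, hX.2⟩
    have hA0 : 0 ≤ ∑ Y ∈ (Icc 1 (S * Z)).filter P, 1 / (Y : ℝ) :=
      sum_nonneg fun _ _ => by positivity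
    calc _ ≤ (S * ∑ Y ∈ (Icc 1 (S * Z)).filter P, 1 / (Y : ℝ)) / Real.log Z :=
          div_le_div_of_nonneg_right hA hl.le
      _ ≤ 2 * (S : ℝ) * ((∑ Y ∈ (Icc 1 (S * Z)).filter P, 1 / (Y : ℝ)) /
          Real.log ((S * Z : ℕ) : ℝ)) := by
          rw [mul_div_assoc', div_le_div_iff₀ hl hl2]
          have h3 : 0 ≤ (S : ℝ) * ∑ Y ∈ (Icc 1 (S * Z)).filter P, 1 / (Y : ℝ) :=
            mul_nonneg hS0.le hA0
          nlinarith

theorem norm_four {m : ℕ} [NeZero m] (h4 : 4 ∣ m) (a : (ZMod m)ˣ) :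
    (∃ x y : ℤ, ((x ^ 2 + ((0 : ℕ) : ℤ) * x * y + ((1 : ℕ) : ℤ) * y ^ 2 : ℤ) : ZMod m) = (a : ZMod m)) ↔
      (a : ZMod m).val % 4 = 1 := by
  have hcast : ∀ z : ℤ, (z : ZMod m) = (a : ZMod m) → ((a : ZMod m).val : ℤ) ≡ z [ZMOD 4] := by
    intro z hz
    have h1 : (((a : ZMod m).val : ℤ) : ZMod m) = (z : ZMod m) := by
      rw [hz]
      simp
    rw [ZMod.intCast_eq_intCast_iff] at h1
    exact h1.of_dvd (by exact_mod_cast h4)
  constructor
  · rintro ⟨x, y, h⟩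
    have h1 := hcast _ h
    have hcop : (a : ZMod m).val.Coprime m := ZMod.val_coe_unit_coprime a
    have hodd : (a : ZMod m).val % 2 = 1 := by
      have h2 : (a : ZMod m).val.Coprime 2 :=
        Nat.Coprime.coprime_dvd_right (dvd_trans (by norm_num) h4) hcop
      exact Nat.odd_iff.1 ((Nat.coprime_comm.1 h2).odd_of_left)
    have e : x ^ 2 + ((0 : ℕ) : ℤ) * x * y + ((1 : ℕ) : ℤ) * y ^ 2 = x ^ 2 + y ^ 2 := by
      push_cast; ring
    rw [e] at h1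
    have h3 : (((a : ZMod m).val : ℕ) : ℤ) % 4 = (x ^ 2 + y ^ 2) % 4 := h1
    rcases Int.even_or_odd' x with ⟨i, rfl | rfl⟩ <;> rcases Int.even_or_odd' y with ⟨j, rfl | rfl⟩ <;>
      ring_nf at h3 <;> omega
  · intro h
    have hcop : (a : ZMod m).val.Coprime m := ZMod.val_coe_unit_coprime a
    obtain ⟨p, hp1, hp, hp2⟩ := Nat.forall_exists_prime_gt_and_eq_mod a.isUnit 0
    have h5 : p % 4 = 1 := by
      have h6 := hcast (p : ℤ) (by exact_mod_cast hp2)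
      have h7 : (((a : ZMod m).val : ℕ) : ℤ) % 4 = (p : ℤ) % 4 := h6
      omega
    haveI : Fact p.Prime := ⟨hp⟩
    obtain ⟨x, y, hxy⟩ := Nat.Prime.sq_add_sq (p := p) (by omega)
    refine ⟨x, y, ?_⟩
    rw [← hp2, ← hxy]
    push_cast
    ring

open scoped Classical in
/-- the pairs of positive integers in a window with `p.1 p.2 = n^2+tn+c`, `n ≡ a`, `p.1 ≡ r mod q` -/
noncomputable def SG (t c q a r : ℕ) (s₁ s₂ s₃ s₄ : ℝ) (X : ℕ) : Finset (ℕ × ℕ) :=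
  (Icc 1 ⌊s₂ * X⌋₊ ×ˢ Icc 1 ⌊s₄ * X⌋₊).filter (fun p => s₁ * X < p.1 ∧ s₃ * X < p.2 ∧
    p.1 ≡ r [MOD q] ∧ ∃ n : ℕ, 1 ≤ n + t ∧ p.1 * p.2 = n ^ 2 + t * n + c ∧ n ≡ a [MOD q])

theorem SG_eq {t c q a r : ℕ} {s₁ s₂ s₃ s₄ : ℝ} (h1 : 0 ≤ s₁) (h3 : 0 ≤ s₃)
    {S : ℕ} (hS : 1 ≤ S) (h2 : s₂ ≤ S)
    (h4 : s₄ ≤ S) (X : ℕ) : SG t c q a r s₁ s₂ s₃ s₄ X =
      SW (t : ℤ) (c : ℤ) q a r (s₁ / S) (s₂ / S) (s₃ / S) (s₄ / S) (S * X) := by
  classical
  have hS0 : (0 : ℝ) < S := by exact_mod_cast hS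
  have hX0 : (0 : ℝ) ≤ X := Nat.cast_nonneg X
  have e : ∀ s : ℝ, s / S * ((S * X : ℕ) : ℝ) = s * X := by
    intro s
    push_cast
    field_simp
  ext p
  rw [mem_SWn, e, e, e, e]
  unfold SG
  rw [mem_filter, mem_product, mem_Icc, mem_Icc]
  constructor
  · rintro ⟨⟨⟨a1, a2⟩, a3, a4⟩, a5, a6, a7, n, a8, a9, a10⟩
    have b1 : (p.1 : ℝ) ≤ s₂ * X := (Nat.le_floor_iff' (by omega)).1 a2
    have b2 : (p.2 : ℝ) ≤ s₄ * X := (Nat.le_floor_iff' (by omega)).1 a4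
    have b3 : (p.1 : ℝ) ≤ ((S * X : ℕ) : ℝ) := by
      push_cast
      exact b1.trans (mul_le_mul_of_nonneg_right h2 hX0)
    have b4 : (p.2 : ℝ) ≤ ((S * X : ℕ) : ℝ) := by
      push_cast
      exact b2.trans (mul_le_mul_of_nonneg_right h4 hX0)
    exact ⟨⟨⟨a1, by exact_mod_cast b3⟩, a3, by exact_mod_cast b4⟩, ⟨n, a8, a9, a10, a7⟩,
      a5, b1, a6, b2⟩
  · rintro ⟨⟨⟨a1, a2⟩, a3, a4⟩, ⟨n, a8, a9, a10, a7⟩, a5, b1, a6, b2⟩
    exact ⟨⟨⟨a1, (Nat.le_floor_iff' (by omega)).2 b1⟩, a3, (Nat.le_floor_iff' (by omega)).2 b2⟩,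
      a5, a6, a7, n, a8, a9, a10⟩

section

variable {A : Type} [AddCommGroup A] {t c : ℕ} {f : ℕ} {χ : DirichletCharacter ℂ f} {m : ℕ}
  {τ : A} {D : AddSubgroup A} {H₁ H₂ : ℕ → A}

theorem norm_dev [Finite A] (B : Finset (ℕ × ℕ)) (g : A) [DecidablePred fun p : ℕ × ℕ =>
    H₁ p.1 + H₂ p.2 = g] :
    (‖∑ p ∈ B, ((if H₁ p.1 + H₂ p.2 = g then (1 : ℂ) else 0) - 1 / (Nat.card D : ℂ))‖ : ℝ) =
      |((B.filter (fun p => H₁ p.1 + H₂ p.2 = g)).card : ℝ) - 1 / (Nat.card D : ℝ) * B.card| := by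
  have h2 : ∑ p ∈ B, ((if H₁ p.1 + H₂ p.2 = g then (1 : ℂ) else 0) - 1 / (Nat.card D : ℂ)) =
      ((((B.filter (fun p => H₁ p.1 + H₂ p.2 = g)).card : ℝ) -
        1 / (Nat.card D : ℝ) * B.card : ℝ) : ℂ) := by
    rw [sum_sub_distrib, sum_boole, sum_const, nsmul_eq_mul]
    push_cast
    ring
  rw [h2, Complex.norm_real, Real.norm_eq_abs]

open scoped Classical in
/-- the pairs of factors in general windows -/
theorem outG [Finite A] (hF : Fd (t : ℤ) (c : ℤ) f χ) (h : Gg t c χ m τ D H₁ H₂) (g : A)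
    (q a r : ℕ) (hq : 1 ≤ q) (hal : Adp t c q a r D H₁ H₂ g) (s₁ s₂ s₃ s₄ : ℝ) (h1 : 0 ≤ s₁)
    (h2 : s₁ < s₂) (h4 : 0 ≤ s₃) (h5 : s₃ < s₄) (ε : ℝ) (hε : 0 < ε) :
    Tendsto (fun N : ℕ => (∑ X ∈ (Icc 1 N).filter (fun X : ℕ => ε * X <
      |(((SG t c q a r s₁ s₂ s₃ s₄ X).filter (fun p => H₁ p.1 + H₂ p.2 = g)).card : ℝ) -
        1 / (Nat.card D : ℝ) * (SG t c q a r s₁ s₂ s₃ s₄ X).card|), 1 / (X : ℝ)) /
      Real.log N) atTop (nhds 0) := by
  obtain ⟨S, hS⟩ := exists_nat_ge (max (max s₂ s₄) 1)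
  have hS1 : 1 ≤ S := by
    have : (1 : ℝ) ≤ S := (le_max_right _ _).trans hS
    exact_mod_cast this
  have hS0 : (0 : ℝ) < S := by exact_mod_cast hS1
  have hS2 : s₂ ≤ S := ((le_max_left _ _).trans (le_max_left _ _)).trans hS
  have hS4 : s₄ ≤ S := ((le_max_right _ _).trans (le_max_left _ _)).trans hS
  have h7 := tt (fun X => ∑ p ∈ SW (t : ℤ) (c : ℤ) q a r (s₁ / S) (s₂ / S) (s₃ / S) (s₄ / S) X,
        ((if H₁ p.1 + H₂ p.2 = g then (1 : ℂ) else 0) - 1 / (Nat.card D : ℂ)))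
    (fun ε' hε' => avg_tw3 hF h g q a r hq hal (s₁ / S) (s₂ / S) (s₃ / S) (s₄ / S)
      (by positivity) (div_lt_div_of_pos_right h2 hS0) (by rw [div_le_one hS0]; exact hS2)
      (by positivity) (div_lt_div_of_pos_right h5 hS0) (by rw [div_le_one hS0]; exact hS4)
      ε' hε') (ε / S) (by positivity)
  have h8 := null_scale hS1 h7
  refine h8.congr fun N => ?_
  congr 1
  refine sum_congr ?_ fun _ _ => rfl
  ext X
  rw [mem_filter, mem_filter]
  refine and_congr_right fun _ => ?_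
  rw [norm_dev, SG_eq h1 h4 hS1 hS2 hS4]
  have e : ε / S * ((S * X : ℕ) : ℝ) = ε * X := by
    push_cast
    field_simp
  rw [e]

open scoped Classical in
/-- the pairs of factors of squarefree values in general windows -/
theorem outGsq [Finite A] (hF : Fd (t : ℤ) (c : ℤ) f χ) (h : Gg t c χ m τ D H₁ H₂) (g : A)
    (q a r : ℕ) (hq : 1 ≤ q) (hal : Adp t c q a r D H₁ H₂ g) (s₁ s₂ s₃ s₄ : ℝ) (h1 : 0 ≤ s₁)
    (h2 : s₁ < s₂) (h4 : 0 ≤ s₃) (h5 : s₃ < s₄) (ε : ℝ) (hε : 0 < ε) :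
    Tendsto (fun N : ℕ => (∑ X ∈ (Icc 1 N).filter (fun X : ℕ => ε * X <
      |((((SG t c q a r s₁ s₂ s₃ s₄ X).filter (fun p => Squarefree (p.1 * p.2))).filter
        (fun p => H₁ p.1 + H₂ p.2 = g)).card : ℝ) -
        1 / (Nat.card D : ℝ) * ((SG t c q a r s₁ s₂ s₃ s₄ X).filter
          (fun p => Squarefree (p.1 * p.2))).card|), 1 / (X : ℝ)) /
      Real.log N) atTop (nhds 0) := by
  obtain ⟨S, hS⟩ := exists_nat_ge (max (max s₂ s₄) 1)
  have hS1 : 1 ≤ S := by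
    have : (1 : ℝ) ≤ S := (le_max_right _ _).trans hS
    exact_mod_cast this
  have hS0 : (0 : ℝ) < S := by exact_mod_cast hS1
  have hS2 : s₂ ≤ S := ((le_max_left _ _).trans (le_max_left _ _)).trans hS
  have hS4 : s₄ ≤ S := ((le_max_right _ _).trans (le_max_left _ _)).trans hS
  have h7 := tt (fun X => ∑ p ∈ (SW (t : ℤ) (c : ℤ) q a r (s₁ / S) (s₂ / S) (s₃ / S)
        (s₄ / S) X).filter (fun p => Squarefree (p.1 * p.2)),
        ((if H₁ p.1 + H₂ p.2 = g then (1 : ℂ) else 0) - 1 / (Nat.card D : ℂ)))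
    (fun ε' hε' => avg_ts3 hF h g q a r hq hal (s₁ / S) (s₂ / S) (s₃ / S) (s₄ / S)
      (by positivity) (div_lt_div_of_pos_right h2 hS0) (by rw [div_le_one hS0]; exact hS2)
      (by positivity) (div_lt_div_of_pos_right h5 hS0) (by rw [div_le_one hS0]; exact hS4)
      ε' hε') (ε / S) (by positivity)
  have h8 := null_scale hS1 h7
  refine h8.congr fun N => ?_
  congr 1
  refine sum_congr ?_ fun _ _ => rfl
  ext X
  rw [mem_filter, mem_filter]
  refine and_congr_right fun _ => ?_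
  rw [norm_dev, SG_eq h1 h4 hS1 hS2 hS4]
  have e : ε / S * ((S * X : ℕ) : ℝ) = ε * X := by
    push_cast
    field_simp
  rw [e]

end

end Pool.Agent.N912.PM
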