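import Pool.Agent.N912.PM.Pairs
import Pool.Agent.W251.EG.Out5
import Pool.Agent.W251.EG.Fd4

/-!
Project PM (helper912), part 11: the polynomial `n^2+1`.
-/

set_option autoImplicit false

namespace Pool.Agent.N912.PM

open Finset Filter
open Pool.Agent.W78.EG
open Pool.Agent.W251.EG
open Pool.Agent.V11296.CV (cv F_mod F_cop)

theorem adm_ng {m k : ℕ} [NeZero m] (b : (ZMod m)ˣ) (w : (ZMod m)ˣ → ZMod k) :
    Adm (NG 0 1 m) k b w ↔ ∃ v : (ZMod m)ˣ → ℕ,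
      (∀ a, v a ≠ 0 → ∃ x y : ZMod m, x ^ 2 + y ^ 2 = (a : ZMod m)) ∧
      ∏ a, a ^ v a = b ∧ ∀ a, (v a : ZMod k) = w a := by
  have h : ∀ a : (ZMod m)ˣ, a ∈ NG 0 1 m ↔ ∃ x y : ZMod m, x ^ 2 + y ^ 2 = (a : ZMod m) := by
    intro a
    constructor
    · rintro ⟨x, y, hxy⟩
      refine ⟨(x : ZMod m), (y : ZMod m), ?_⟩
      rw [← hxy]
      push_cast
      ring
    · rintro ⟨x, y, hxy⟩
      obtain ⟨x', rfl⟩ := ZMod.intCast_surjective x
      obtain ⟨y', rfl⟩ := ZMod.intCast_surjective y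
      refine ⟨x', y', ?_⟩
      rw [← hxy]
      push_cast
      ring
  unfold Adm
  constructor
  · rintro ⟨v, h1, h2, h3⟩
    exact ⟨v, fun a ha => (h a).1 (by by_contra hc; exact ha (h1 a hc)), h2, h3⟩
  · rintro ⟨v, h1, h2, h3⟩
    exact ⟨v, fun a ha => by by_contra hc; exact ha ((h a).2 (h1 a hc)), h2, h3⟩

theorem cop_of_unit {m x : ℕ} (b : (ZMod m)ˣ) (h : (x : ZMod m) = b) : x.Coprime m := by
  rw [← ZMod.isUnit_iff_coprime, h]
  exact b.isUnit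

end Pool.Agent.N912.PM
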