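import Pool.Agent.N912.PM.Mainy

/-!
Project PM (helper912), part 6: means of `g₁(d) g₂(d')` over the factorisations `d d' = n^2+tn+c`, for
completely multiplicative functions with `g₁(p) g₂(p) = τ` for the primes `p ≡ 1 mod m` only
(extension of W251.EG.TW, TS).
-/

set_option autoImplicit false

namespace Pool.Agent.N912.PM

open Finset Filter
open Pool.Agent.W78.GA (Qd nm dt ip dedge nm_mul nm_cast)
open Pool.Agent.W251.GX (Cm)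
open Pool.Agent.W251.EX (Sqp)
open Pool.Agent.W78.EG
open Pool.Agent.W334.EG (hD_of nmne norm_one_of RR RR_rel CC CC_iff SP_swap Win mem_Win finyw SW_eq)
open Pool.Agent.W251.EG (fcm chi_of_nm RS RS_rel sqp_swap S_TAILc TX TX_le TX_nonneg sum_inv_le
  norm_root sqf_sqp)

variable {t c : ℤ} {f : ℕ} {χ : DirichletCharacter ℂ f}

/-- completely multiplicative functions `g₁`, `g₂` whose values are roots of unity, with
`g₁(p) g₂(p) = τ` for the primes `p ≡ 1 mod m` with `χ(p) ≠ -1` -/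
structure FGm (χ : DirichletCharacter ℂ f) (N m : ℕ) (τ : ℂ) (g₁ g₂ : ℕ → ℂ) : Prop where
  pos : 1 ≤ N
  mod : 1 ≤ m
  m₁ : ∀ m n : ℕ, m ≠ 0 → n ≠ 0 → g₁ (m * n) = g₁ m * g₁ n
  m₂ : ∀ m n : ℕ, m ≠ 0 → n ≠ 0 → g₂ (m * n) = g₂ m * g₂ n
  p₁ : ∀ n : ℕ, g₁ n ^ N = 1
  p₂ : ∀ n : ℕ, g₂ n ^ N = 1
  nrm : ‖τ‖ = 1
  tw : ∀ p : ℕ, p.Prime → χ (p : ZMod f) ≠ -1 → p ≡ 1 [MOD m] → g₁ p * g₂ p = τ

open scoped Classical in
/-- cancellation for `g₁(d) g₂(d')` over the pairs in windows without small square divisors, at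
almost all scales -/
def S_TWm (t c : ℤ) (χ : DirichletCharacter ℂ f) : Prop := ∀ (N m : ℕ) (τ : ℂ) (g₁ g₂ : ℕ → ℂ),
  FGm χ N m τ g₁ g₂ →
  (Apd N (fun z : Qd t c => g₁ (nm z)) ∨ Apd N (fun z : Qd t c => g₂ (nm z))) →
  ∀ q a r P : ℕ, 1 ≤ q →
  ∀ (s₁ s₂ s₃ s₄ : ℝ), 0 ≤ s₁ → s₁ < s₂ → s₂ ≤ 1 → 0 ≤ s₃ → s₃ < s₄ → s₄ ≤ 1 →
  ∀ ε : ℝ, 0 < ε → ∃ N₀ : ℕ, ∀ N' : ℕ, N₀ ≤ N' → ∑ X ∈ Icc 1 N', 1 / (X : ℝ) ^ 2 *
    ‖∑ p ∈ (SW t c q a r s₁ s₂ s₃ s₄ X).filter (Sqp P), g₁ p.1 * g₂ p.2‖ ≤ ε * Real.log N'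

open scoped Classical in
/-- cancellation for `g₁(d) g₂(d')` over the pairs in windows with `d d'` squarefree -/
def S_TSm (t c : ℤ) (χ : DirichletCharacter ℂ f) : Prop := ∀ (N m : ℕ) (τ : ℂ) (g₁ g₂ : ℕ → ℂ),
  FGm χ N m τ g₁ g₂ →
  (Apd N (fun z : Qd t c => g₁ (nm z)) ∨ Apd N (fun z : Qd t c => g₂ (nm z))) →
  ∀ q a r : ℕ, 1 ≤ q →
  ∀ (s₁ s₂ s₃ s₄ : ℝ), 0 ≤ s₁ → s₁ < s₂ → s₂ ≤ 1 → 0 ≤ s₃ → s₃ < s₄ → s₄ ≤ 1 →
  ∀ ε : ℝ, 0 < ε → ∃ N₀ : ℕ, ∀ N' : ℕ, N₀ ≤ N' → ∑ X ∈ Icc 1 N', 1 / (X : ℝ) ^ 2 *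
    ‖∑ p ∈ (SW t c q a r s₁ s₂ s₃ s₄ X).filter (fun p => Squarefree (p.1 * p.2)),
      g₁ p.1 * g₂ p.2‖ ≤ ε * Real.log N'

theorem fg_PrM (hF : Fd t c f χ) (N m : ℕ) (τ : ℂ) (g₁ g₂ : ℕ → ℂ) (h : FGm χ N m τ g₁ g₂) :
    Pm N m τ (fun z : Qd t c => g₁ (nm z)) (fun z : Qd t c => g₂ (nm z)) :=
  ⟨fcm (hD_of hF) N g₁ h.pos h.m₁ h.p₁, fcm (hD_of hF) N g₂ h.pos h.m₂ h.p₂, h.nrm,
    fun π hπ h1 => h.tw _ hπ (chi_of_nm hF π hπ) h1⟩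

theorem fg_swapM {N m : ℕ} {τ : ℂ} {g₁ g₂ : ℕ → ℂ} (h : FGm χ N m τ g₁ g₂) :
    FGm χ N m τ g₂ g₁ :=
  ⟨h.pos, h.mod, h.m₂, h.m₁, h.p₂, h.p₁, h.nrm,
    fun p hp h4 h5 => by rw [mul_comm]; exact h.tw p hp h4 h5⟩

open scoped Classical in
theorem corewM (hF : Fd t c f χ) (h1 : S_MAINYm t c χ) (h2 : S_CORR t c) (h3 : S_SCNT t c)
    (hb : ∀ (N : ℕ) (F : Qd t c → ℂ), Apd N F → ∀ (q : ℕ) (β : Qd t c), 1 ≤ q →
      Bt χ (cl q β (fun z => (F z).re)) ∧ Bt χ (cl q β (fun z => (F z).im)))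
    (N m : ℕ) (τ : ℂ) (g₁ g₂' : ℕ → ℂ) (hfg : FGm χ N m τ g₁ g₂')
    (ha : Apd N (fun z : Qd t c => g₂' (nm z)))
    (q a r P : ℕ) (hq : 1 ≤ q) (sw : Bool) (s₁ s₂ s₃ s₄ : ℝ) (hs1 : 0 ≤ s₁) (hs12 : s₁ < s₂)
    (hs2 : s₂ ≤ 1) (hs3 : 0 ≤ s₃) (hs34 : s₃ < s₄) (hs4 : s₄ ≤ 1) (ε : ℝ) (hε : 0 < ε) :
    ∃ N₀ : ℕ, ∀ N' : ℕ, N₀ ≤ N' →
    ∑ X ∈ Icc 1 N', 1 / (X : ℝ) ^ 2 * ‖∑ p ∈ Win t c s₁ s₂ s₃ s₄ X,
      (if CC t c q a r sw p.1 p.2 ∧ Sqp P (p.1, p.2) then g₁ p.1 * g₂' p.2 else 0)‖ ≤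
      ε * Real.log N' := by
  have hD := hD_of hF
  have nf : ∀ n, ‖g₁ n‖ = 1 := fun n => norm_one_of N (g₁ n) hfg.pos (hfg.p₁ n)
  have ng : ∀ n, ‖g₂' n‖ = 1 := fun n => norm_one_of N (g₂' n) hfg.pos (hfg.p₂ n)
  refine finyw hD h2 h3
      (fun x y => if CC t c q a r sw x y ∧ Sqp P (x, y) then g₁ x * g₂' y else 0) ?_
      s₁ s₂ s₃ s₄ hs1 hs12 hs3 hs34 ?_ ε hε
  · intro x y
    show ‖if CC t c q a r sw x y ∧ Sqp P (x, y) then _ else (0 : ℂ)‖ ≤ 1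
    split_ifs
    · rw [norm_mul, nf, ng]
      simp
    · simp
  · intro σ₁ σ₃ hσ1 hσ12 hσ3 hσ34 ε hε
    have hq' : 1 ≤ q * P.factorial ^ 2 :=
      Nat.mul_pos hq (pow_pos (Nat.factorial_pos P) 2)
    obtain ⟨N₀, hN₀⟩ := h1 N m τ (fun z : Qd t c => g₁ (nm z)) (fun z : Qd t c => g₂' (nm z))
      (fg_PrM hF N m τ g₁ g₂' hfg) hfg.mod (fun q β hq => hb N _ ha q β hq)
      (q * P.factorial ^ 2) hq'
      (RS q a r sw P) (RS_rel hD q a r sw P) σ₁ s₂ σ₃ s₄ hσ1 hσ12 hs2 hσ3 hσ34 hs4 ε hε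
    refine ⟨N₀, fun N' hN => ?_⟩
    have hthis := hN₀ N' hN
    have hAG : ∀ X : ℕ, AG (fun e : Qd t c × Qd t c =>
        (fun x y => if CC t c q a r sw x y ∧ Sqp P (x, y) then
        g₁ x * g₂' y else 0) (nm e.1) (nm e.2)) σ₁ s₂ σ₃ s₄ (X : ℝ) =
        AG (g2 (fun z : Qd t c => g₁ (nm z)) (fun z : Qd t c => g₂' (nm z))
          (RS q a r sw P)) σ₁ s₂ σ₃ s₄ (X : ℝ) := by
      intro X
      unfold AG
      refine sum_congr rfl fun e he => ?_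
      rw [mem_filter] at he
      have hdt : dt e.1 e.2 = 1 := by
        have h3 := he.1
        unfold dedge at h3
        exact (mem_filter.1 h3).2
      unfold g2
      beta_reduce
      have hiff := CC_iff hF q a r sw e.1 e.2 hdt he.2.1
      by_cases hc : CC t c q a r sw (nm e.1) (nm e.2) ∧ Sqp P (nm e.1, nm e.2)
      · have hR : RS q a r sw P e.1 e.2 := ⟨hiff.1 hc.1, hc.2⟩
        rw [if_pos hc, if_pos hR]
      · have hR : ¬ RS q a r sw P e.1 e.2 := fun h => hc ⟨hiff.2 h.1, h.2⟩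
        rw [if_neg hc, if_neg hR]
    refine le_trans (le_of_eq (sum_congr rfl fun X _ => ?_)) hthis
    rw [hAG X]

/-- TW -/
theorem twcM (hF : Fd t c f χ) (h1 : S_MAINYm t c χ) (h2 : S_CORR t c) (h3 : S_SCNT t c)
    (hb : ∀ (N : ℕ) (F : Qd t c → ℂ), Apd N F → ∀ (q : ℕ) (β : Qd t c), 1 ≤ q →
      Bt χ (cl q β (fun z => (F z).re)) ∧ Bt χ (cl q β (fun z => (F z).im))) :
    S_TWm t c χ := by
  classical
  intro N m τ g₁ g₂' hfg hap q a r P hq s₁ s₂ s₃ s₄ hs1 hs12 hs2 hs3 hs34 hs4 ε hε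
  rcases hap with ha | ha
  · obtain ⟨N₀, hN₀⟩ := corewM hF h1 h2 h3 hb N m τ g₂' g₁ (fg_swapM hfg) ha q a r P hq true
      s₃ s₄ s₁ s₂ hs3 hs34 hs4 hs1 hs12 hs2 ε hε
    refine ⟨N₀, fun N' hN => le_trans (le_of_eq (sum_congr rfl fun X _ => ?_)) (hN₀ N' hN)⟩
    congr 2
    rw [SW_eq, sum_filter, sum_filter]
    refine sum_nbij' Prod.swap Prod.swap ?_ ?_ (fun p _ => Prod.swap_swap p)
      (fun p _ => Prod.swap_swap p) fun p hp => ?_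
    · intro p hp
      rw [mem_Win] at hp ⊢
      exact ⟨SP_swap hp.1, hp.2.2.2.1, hp.2.2.2.2, hp.2.1, hp.2.2.1⟩
    · intro p hp
      rw [mem_Win] at hp ⊢
      exact ⟨SP_swap hp.1, hp.2.2.2.1, hp.2.2.2.2, hp.2.1, hp.2.2.1⟩
    have hiff : CC t c q a r true p.swap.1 p.swap.2 ↔ Cd t c q a r p := by
      unfold CC Cd
      simp only [if_true, Prod.fst_swap, Prod.snd_swap]
      constructor
      · rintro ⟨n, h0, h3, h4, h5⟩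
        exact ⟨n, h0, by rw [mul_comm]; exact h3, h4, h5⟩
      · rintro ⟨n, h0, h3, h4, h5⟩
        exact ⟨n, h0, by rw [mul_comm]; exact h3, h4, h5⟩
    have hs : Sqp P (p.swap.1, p.swap.2) ↔ Sqp P p := sqp_swap P _ _
    by_cases hc : CC t c q a r true p.swap.1 p.swap.2
    · by_cases hd : Sqp P (p.swap.1, p.swap.2)
      · have hcd := And.intro hc hd
        rw [if_pos (hiff.1 hc), if_pos (hs.1 hd), if_pos hcd]
        simp only [Prod.fst_swap, Prod.snd_swap]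
        rw [mul_comm]
      · have hcd : ¬ (CC t c q a r true p.swap.1 p.swap.2 ∧ Sqp P (p.swap.1, p.swap.2)) :=
          fun h => hd h.2
        rw [if_pos (hiff.1 hc), if_neg (fun h => hd (hs.2 h)), if_neg hcd]
    · have hcd : ¬ (CC t c q a r true p.swap.1 p.swap.2 ∧ Sqp P (p.swap.1, p.swap.2)) :=
        fun h => hc h.1
      rw [if_neg (fun h => hc (hiff.2 h)), if_neg hcd]
  · obtain ⟨N₀, hN₀⟩ := corewM hF h1 h2 h3 hb N m τ g₁ g₂' hfg ha q a r P hq false s₁ s₂ s₃ s₄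
      hs1 hs12 hs2 hs3 hs34 hs4 ε hε
    refine ⟨N₀, fun N' hN => le_trans (le_of_eq (sum_congr rfl fun X _ => ?_)) (hN₀ N' hN)⟩
    congr 2
    rw [SW_eq, sum_filter, sum_filter]
    refine sum_congr rfl fun p hp => ?_
    have hiff : CC t c q a r false p.1 p.2 ↔ Cd t c q a r p := by
      unfold CC Cd
      simp only [Bool.false_eq_true, if_false]
    by_cases hc : CC t c q a r false p.1 p.2
    · by_cases hd : Sqp P (p.1, p.2)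
      · have hcd := And.intro hc hd
        rw [if_pos (hiff.1 hc), if_pos (show Sqp P p from hd), if_pos hcd]
      · have hcd : ¬ (CC t c q a r false p.1 p.2 ∧ Sqp P (p.1, p.2)) := fun h => hd h.2
        rw [if_pos (hiff.1 hc), if_neg (show ¬ Sqp P p from hd), if_neg hcd]
    · have hcd : ¬ (CC t c q a r false p.1 p.2 ∧ Sqp P (p.1, p.2)) := fun h => hc h.1
      rw [if_neg (fun h => hc (hiff.2 h)), if_neg hcd]

open scoped Classical in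
theorem stepM (N m : ℕ) (τ : ℂ) (g₁ g₂ : ℕ → ℂ) (h : FGm χ N m τ g₁ g₂) (q a r P : ℕ) (s₁ s₂ s₃ s₄ : ℝ)
    (X : ℕ) :
    ‖∑ p ∈ (SW t c q a r s₁ s₂ s₃ s₄ X).filter (fun p => Squarefree (p.1 * p.2)),
      g₁ p.1 * g₂ p.2‖ ≤
    ‖∑ p ∈ (SW t c q a r s₁ s₂ s₃ s₄ X).filter (Sqp P), g₁ p.1 * g₂ p.2‖ + TX t c P X := by
  have hn : ∀ p : ℕ × ℕ, ‖g₁ p.1 * g₂ p.2‖ = 1 := fun p => by
    rw [norm_mul, norm_root h.pos (h.p₁ p.1), norm_root h.pos (h.p₂ p.2), one_mul]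
  have e : ∑ p ∈ (SW t c q a r s₁ s₂ s₃ s₄ X).filter (fun p => Squarefree (p.1 * p.2)),
      g₁ p.1 * g₂ p.2 = ∑ p ∈ (SW t c q a r s₁ s₂ s₃ s₄ X).filter (Sqp P), g₁ p.1 * g₂ p.2 -
      ∑ p ∈ (SW t c q a r s₁ s₂ s₃ s₄ X).filter (fun p => Sqp P p ∧ ¬ Squarefree (p.1 * p.2)),
        g₁ p.1 * g₂ p.2 := by
    rw [eq_sub_iff_add_eq,
      ← Finset.sum_filter_add_sum_filter_not ((SW t c q a r s₁ s₂ s₃ s₄ X).filter (Sqp P))
        (fun p => Squarefree (p.1 * p.2)), Finset.filter_filter, Finset.filter_filter]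
    congr 1
    refine Finset.sum_congr ?_ fun _ _ => rfl
    ext p
    simp only [Finset.mem_filter]
    exact ⟨fun hp => ⟨hp.1, sqf_sqp hp.2, hp.2⟩, fun hp => ⟨hp.1, hp.2.2⟩⟩
  rw [e]
  refine (norm_sub_le _ _).trans ?_
  gcongr
  refine (norm_sum_le _ _).trans ?_
  rw [Finset.sum_congr rfl (fun p _ => hn p), Finset.sum_const, nsmul_eq_mul, mul_one]
  unfold TX
  have h1 : ((SW t c q a r s₁ s₂ s₃ s₄ X).filter (fun p => Sqp P p ∧ ¬ Squarefree (p.1 * p.2))) ⊆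
      ((SP t c X).filter (fun p => Sqp P p ∧ ¬ Squarefree (p.1 * p.2))) := by
    intro p hp
    rw [Finset.mem_filter] at hp ⊢
    refine ⟨?_, hp.2⟩
    have := hp.1
    unfold SW at this
    exact (Finset.mem_filter.1 this).1
  exact_mod_cast Finset.card_le_card h1

open scoped Classical in
theorem tscM (h1 : S_TWm t c χ) (h2 : S_TAILc t c) : S_TSm t c χ := by
  intro N m τ g₁ g₂ hfg hap q a r hq s₁ s₂ s₃ s₄ a1 a2 a3 a4 a5 a6 ε hε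
  obtain ⟨P, X₀, hT⟩ := h2 (ε / 4) (by linarith)
  obtain ⟨N₁, hN₁⟩ := h1 N m τ g₁ g₂ hfg hap q a r P hq s₁ s₂ s₃ s₄ a1 a2 a3 a4 a5 a6 (ε / 4)
    (by linarith)
  refine ⟨max N₁ ⌈Real.exp (max 1 (4 * X₀ / ε))⌉₊, fun N' hN' => ?_⟩
  have hL : max 1 (4 * X₀ / ε) ≤ Real.log N' := by
    have g1 : Real.exp (max 1 (4 * X₀ / ε)) ≤ N' :=
      (Nat.le_ceil _).trans (by exact_mod_cast (le_max_right _ _).trans hN')
    rw [Real.le_log_iff_exp_le (lt_of_lt_of_le (Real.exp_pos _) g1)]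
    exact g1
  have hL1 : 1 ≤ Real.log N' := (le_max_left _ _).trans hL
  have hL2 : (X₀ : ℝ) ≤ ε / 4 * Real.log N' := by
    have g1 : 4 * X₀ / ε ≤ Real.log N' := (le_max_right _ _).trans hL
    rw [div_le_iff₀ hε] at g1
    linarith
  have hA := hN₁ N' ((le_max_left _ _).trans hN')
  have hB : ∑ X ∈ Icc 1 N', 1 / (X : ℝ) ^ 2 * TX t c P X ≤ ε / 4 * (1 + Real.log N') + X₀ := by
    have g1 : ∀ X ∈ Icc 1 N', 1 / (X : ℝ) ^ 2 * TX t c P X ≤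
        ε / 4 * (1 / (X : ℝ)) + (if X < X₀ then 1 else 0) := by
      intro X hX
      have hX1 : (0 : ℝ) < X := by
        have := (Finset.mem_Icc.1 hX).1
        exact_mod_cast this
      split_ifs with hlt
      · have g2 : 1 / (X : ℝ) ^ 2 * TX t c P X ≤ 1 / (X : ℝ) ^ 2 * (X : ℝ) ^ 2 :=
          mul_le_mul_of_nonneg_left (TX_le t c P X) (by positivity)
        rw [one_div, inv_mul_cancel₀ (by positivity)] at g2
        have g3 : 0 ≤ ε / 4 * (1 / (X : ℝ)) := by positivity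
        rw [one_div]
        linarith
      · have g2 : TX t c P X ≤ ε / 4 * X := hT X (not_lt.1 hlt)
        have g3 : 1 / (X : ℝ) ^ 2 * TX t c P X ≤ 1 / (X : ℝ) ^ 2 * (ε / 4 * X) :=
          mul_le_mul_of_nonneg_left g2 (by positivity)
        have g4 : 1 / (X : ℝ) ^ 2 * (ε / 4 * X) = ε / 4 * (1 / (X : ℝ)) := by
          field_simp
        linarith
    refine (Finset.sum_le_sum g1).trans ?_
    rw [Finset.sum_add_distrib, ← Finset.mul_sum]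
    have g2 := sum_inv_le N'
    have g3 : ∑ X ∈ Icc 1 N', (if X < X₀ then (1 : ℝ) else 0) ≤ X₀ := by
      rw [← Finset.sum_filter, Finset.sum_const, nsmul_eq_mul, mul_one]
      have : ((Icc 1 N').filter (fun X => X < X₀)).card ≤ (Finset.range X₀).card :=
        Finset.card_le_card fun X hX => Finset.mem_range.2 (Finset.mem_filter.1 hX).2
      rw [Finset.card_range] at this
      exact_mod_cast this
    have g4 : ε / 4 * ∑ X ∈ Icc 1 N', 1 / (X : ℝ) ≤ ε / 4 * (1 + Real.log N') :=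
      mul_le_mul_of_nonneg_left g2 (by linarith)
    linarith
  have hC : ∑ X ∈ Icc 1 N', 1 / (X : ℝ) ^ 2 *
      ‖∑ p ∈ (SW t c q a r s₁ s₂ s₃ s₄ X).filter (fun p => Squarefree (p.1 * p.2)),
        g₁ p.1 * g₂ p.2‖ ≤ ∑ X ∈ Icc 1 N', 1 / (X : ℝ) ^ 2 *
      ‖∑ p ∈ (SW t c q a r s₁ s₂ s₃ s₄ X).filter (Sqp P), g₁ p.1 * g₂ p.2‖ +
      ∑ X ∈ Icc 1 N', 1 / (X : ℝ) ^ 2 * TX t c P X := by
    rw [← Finset.sum_add_distrib]
    refine Finset.sum_le_sum fun X _ => ?_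
    rw [← mul_add]
    exact mul_le_mul_of_nonneg_left (stepM N m τ g₁ g₂ hfg q a r P s₁ s₂ s₃ s₄ X) (by positivity)
  refine hC.trans ?_
  nlinarith

theorem avxmG (hF : Fd t c f χ) : S_AVXm t c χ :=
  avxM hF (Pool.Agent.W251.EG.zxG hF) (Pool.Agent.W251.EG.perxG hF) (Pool.Agent.W251.EG.dcpG hF)
    (Pool.Agent.W251.EG.lossG hF) (Pool.Agent.W251.EG.pcntG hF)

theorem mainymG (hF : Fd t c f χ) : S_MAINYm t c χ :=
  mainyM hF (avxmG hF) (Pool.Agent.W251.EG.regxG hF) (Pool.Agent.W251.EG.pcntG hF)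

theorem twmG (hF : Fd t c f χ) : S_TWm t c χ :=
  twcM hF (mainymG hF) (Pool.Agent.W251.EG.corrG hF) (Pool.Agent.W251.EG.scntG hF)
    (Pool.Agent.W251.EG.btaG hF)

theorem tsmG (hF : Fd t c f χ) : S_TSm t c χ :=
  tscM (twmG hF) (Pool.Agent.W251.EG.tailc hF
    (Pool.Agent.W78.GA.sqb (Pool.Agent.W251.EG.hDG hF)) (Pool.Agent.W251.EG.corrG hF))

end Pool.Agent.N912.PM
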