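import Mathlib

/-!
Project PM (helper912): vectors indexed by a finite commutative group modulo `k`. The group generated by
the vectors `e_a + e_b - e_{ab}` (`a, b` in a subgroup `G`) is the group of the reductions modulo `k` of
the integer vectors `v` supported on `G` with `∏ a^{v_a} = 1`.
-/

set_option autoImplicit false

namespace Pool.Agent.N912.PM

open Finset

variable {M : Type} [CommGroup M] [Fintype M] [DecidableEq M]

/-- the group generated by the defects -/
def DG (G : Subgroup M) (k : ℕ) : AddSubgroup (M → ZMod k) :=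
  AddSubgroup.closure {w | ∃ a ∈ G, ∃ b ∈ G,
    w = Pi.single a 1 + Pi.single b 1 - Pi.single (a * b) 1}

/-- `w` is the reduction modulo `k` of the vector of multiplicities of the elements of a multiset in
`G` with product `b` -/
def Adm (G : Subgroup M) (k : ℕ) (b : M) (w : M → ZMod k) : Prop :=
  ∃ v : M → ℕ, (∀ a, a ∉ G → v a = 0) ∧ ∏ a, a ^ v a = b ∧ ∀ a, (v a : ZMod k) = w a

/-- the same with integers -/
def AdmZ (G : Subgroup M) (k : ℕ) (b : M) (w : M → ZMod k) : Prop :=
  ∃ v : M → ℤ, (∀ a, a ∉ G → v a = 0) ∧ ∏ a, a ^ v a = b ∧ ∀ a, (v a : ZMod k) = w a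

theorem adm_iff_admZ (G : Subgroup M) {k : ℕ} (hk : 1 ≤ k) (b : M) (w : M → ZMod k) :
    Adm G k b w ↔ AdmZ G k b w := by
  constructor
  · rintro ⟨v, h1, h2, h3⟩
    refine ⟨fun a => (v a : ℤ), fun a ha => by beta_reduce; rw [h1 a ha]; rfl, ?_, fun a => ?_⟩
    · rw [← h2]
      exact prod_congr rfl fun a _ => zpow_natCast a (v a)
    · rw [← h3 a]
      push_cast
      rfl
  · rintro ⟨v, h1, h2, h3⟩
    obtain ⟨K, hK⟩ : ∃ K : ℕ, K = k * Fintype.card M := ⟨_, rfl⟩
    have hK0 : 0 < K := by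
      rw [hK]
      exact Nat.mul_pos hk Fintype.card_pos
    have hKz : (0 : ℤ) < K := by exact_mod_cast hK0
    have hnn : ∀ a, ((((v a) % (K : ℤ)).toNat : ℕ) : ℤ) = v a % K := fun a =>
      Int.toNat_of_nonneg (Int.emod_nonneg _ hKz.ne')
    refine ⟨fun a => ((v a) % (K : ℤ)).toNat, fun a ha => ?_, ?_, fun a => ?_⟩
    · show ((v a) % (K : ℤ)).toNat = 0
      rw [h1 a ha]
      simp
    · rw [← h2]
      refine prod_congr rfl fun a _ => ?_
      show a ^ ((v a) % (K : ℤ)).toNat = a ^ v a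
      rw [← zpow_natCast, hnn a]
      have h4 : v a = v a % K + K * (v a / K) := (Int.emod_add_mul_ediv _ _).symm
      conv_rhs => rw [h4, zpow_add, zpow_mul]
      have h5 : a ^ (K : ℤ) = 1 := by
        rw [zpow_natCast, hK, mul_comm, pow_mul, pow_card_eq_one, one_pow]
      rw [h5, one_zpow, mul_one]
    · show ((((v a) % (K : ℤ)).toNat : ℕ) : ZMod k) = w a
      rw [← h3 a]
      have h6 : (((((v a) % (K : ℤ)).toNat : ℕ) : ℤ) : ZMod k) = ((v a : ℤ) : ZMod k) := by
        rw [hnn a, ZMod.intCast_eq_intCast_iff]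
        have h7 : (v a % K : ℤ) ≡ v a [ZMOD K] := Int.mod_modEq _ _
        exact h7.of_dvd (by rw [hK]; push_cast; exact dvd_mul_right _ _)
      rw [← h6]
      push_cast
      rfl

theorem prod_single (a : M) (n : ℤ) : ∏ x, x ^ (Pi.single a n : M → ℤ) x = a ^ n := by
  rw [prod_eq_single a]
  · rw [Pi.single_eq_same]
  · intro b _ hb
    rw [Pi.single_eq_of_ne hb, zpow_zero]
  · intro h
    exact absurd (mem_univ a) h

theorem DG_admZ {G : Subgroup M} {k : ℕ} {u : M → ZMod k} (hu : u ∈ DG G k) :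
    AdmZ G k 1 u := by
  unfold DG at hu
  induction hu using AddSubgroup.closure_induction with
  | mem w hw =>
    obtain ⟨a, ha, b, hb, rfl⟩ := hw
    refine ⟨Pi.single a 1 + Pi.single b 1 - Pi.single (a * b) 1, fun x hx => ?_, ?_, fun x => ?_⟩
    · have h1 : x ≠ a := fun h => hx (h ▸ ha)
      have h2 : x ≠ b := fun h => hx (h ▸ hb)
      have h3 : x ≠ a * b := fun h => hx (h ▸ G.mul_mem ha hb)
      rw [Pi.sub_apply, Pi.add_apply, Pi.single_eq_of_ne h1, Pi.single_eq_of_ne h2,
        Pi.single_eq_of_ne h3]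
      rfl
    · have h4 : ∀ x : M, x ^ ((Pi.single a 1 + Pi.single b 1 - Pi.single (a * b) 1 : M → ℤ) x) =
          x ^ (Pi.single a 1 : M → ℤ) x * x ^ (Pi.single b 1 : M → ℤ) x *
            (x ^ (Pi.single (a * b) 1 : M → ℤ) x)⁻¹ := by
        intro x
        rw [Pi.sub_apply, Pi.add_apply, zpow_sub, zpow_add]
      rw [prod_congr rfl (fun x _ => h4 x), prod_mul_distrib, prod_mul_distrib, prod_inv_distrib,
        prod_single, prod_single, prod_single, zpow_one, zpow_one, zpow_one]
      exact mul_inv_cancel _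
    · rw [Pi.sub_apply, Pi.add_apply, Pi.sub_apply, Pi.add_apply]
      push_cast
      simp only [Pi.single_apply]
      split_ifs <;> simp
  | zero => exact ⟨0, fun _ _ => rfl, by simp, fun _ => by simp⟩
  | add x y _ _ hx hy =>
    obtain ⟨v, h1, h2, h3⟩ := hx
    obtain ⟨v', h1', h2', h3'⟩ := hy
    refine ⟨v + v', fun a ha => ?_, ?_, fun a => ?_⟩
    · rw [Pi.add_apply, h1 a ha, h1' a ha, add_zero]
    · have h4 : ∀ a : M, a ^ (v + v') a = a ^ v a * a ^ v' a := fun a => by
        rw [Pi.add_apply, zpow_add]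
      rw [prod_congr rfl (fun a _ => h4 a), prod_mul_distrib, h2, h2', one_mul]
    · rw [Pi.add_apply, Pi.add_apply, ← h3 a, ← h3' a]
      push_cast
      rfl
  | neg x _ hx =>
    obtain ⟨v, h1, h2, h3⟩ := hx
    refine ⟨-v, fun a ha => ?_, ?_, fun a => ?_⟩
    · rw [Pi.neg_apply, h1 a ha, neg_zero]
    · have h4 : ∀ a : M, a ^ (-v) a = (a ^ v a)⁻¹ := fun a => by
        rw [Pi.neg_apply, zpow_neg]
      rw [prod_congr rfl (fun a _ => h4 a), prod_inv_distrib, h2, inv_one]
    · rw [Pi.neg_apply, Pi.neg_apply, ← h3 a]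
      push_cast
      rfl

/-- the classes of the unit vectors modulo the defects are multiplicative -/
theorem single_mul {G : Subgroup M} {k : ℕ} {a b : M} (ha : a ∈ G) (hb : b ∈ G) :
    Pi.single a 1 + Pi.single b 1 - Pi.single (a * b) (1 : ZMod k) ∈ DG G k :=
  AddSubgroup.subset_closure ⟨a, ha, b, hb, rfl⟩

theorem single_one_mem {G : Subgroup M} {k : ℕ} : (Pi.single 1 (1 : ZMod k) : M → ZMod k) ∈ DG G k := by
  have h := single_mul (k := k) G.one_mem G.one_mem
  rw [mul_one] at h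
  simpa using h

/-- the homomorphism from `G` to the quotient -/
def iota (G : Subgroup M) (k : ℕ) : G →* Multiplicative ((M → ZMod k) ⧸ DG G k) where
  toFun a := Multiplicative.ofAdd (QuotientAddGroup.mk (Pi.single (a : M) (1 : ZMod k)))
  map_one' := by
    rw [← ofAdd_zero]
    congr 1
    exact (QuotientAddGroup.eq_zero_iff _).2 single_one_mem
  map_mul' a b := by
    rw [← ofAdd_add, ← QuotientAddGroup.mk_add]
    congr 1
    rw [QuotientAddGroup.eq]
    have h := single_mul (k := k) a.2 b.2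
    have e : -(Pi.single ((a * b : G) : M) (1 : ZMod k) : M → ZMod k) +
        (Pi.single (a : M) 1 + Pi.single (b : M) 1) =
        Pi.single (a : M) 1 + Pi.single (b : M) 1 - Pi.single ((a : M) * b) (1 : ZMod k) := by
      rw [Subgroup.coe_mul]
      abel
    rw [e]
    exact h


theorem admZ_DG {G : Subgroup M} {k : ℕ} {b : M} (hb : b ∈ G) {w : M → ZMod k}
    (hw : AdmZ G k b w) : w - Pi.single b 1 ∈ DG G k := by
  classical
  obtain ⟨v, h1, h2, h3⟩ := hw
  -- the class of `w`
  have e1 : w = ∑ a, (v a) • (Pi.single a (1 : ZMod k) : M → ZMod k) := by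
    funext x
    rw [Finset.sum_apply, sum_eq_single x]
    · rw [Pi.smul_apply, Pi.single_eq_same, ← h3 x, zsmul_eq_mul, mul_one]
    · intro a _ ha
      rw [Pi.smul_apply, Pi.single_eq_of_ne ha.symm, smul_zero]
    · intro h
      exact absurd (mem_univ x) h
  have e2 : (QuotientAddGroup.mk w : (M → ZMod k) ⧸ DG G k) =
      ∑ a, (v a) • (QuotientAddGroup.mk (Pi.single a (1 : ZMod k)) : (M → ZMod k) ⧸ DG G k) := by
    conv_lhs => rw [e1]
    have h4 := map_sum (QuotientAddGroup.mk' (DG G k))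
      (fun a => (v a) • (Pi.single a (1 : ZMod k) : M → ZMod k)) univ
    simp only [QuotientAddGroup.mk'_apply] at h4
    rw [h4]
    exact sum_congr rfl fun a _ => QuotientAddGroup.mk_zsmul _ _ _
  have e3 : ∀ s : Finset M, (∀ a ∈ s, a ∈ G) → ∃ g : G, (g : M) = ∏ a ∈ s, a ^ v a ∧
      Multiplicative.toAdd (iota G k g) =
      ∑ a ∈ s, (v a) • (QuotientAddGroup.mk (Pi.single a (1 : ZMod k)) : (M → ZMod k) ⧸ DG G k) := by
    intro s
    induction s using Finset.induction_on with
    | empty =>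
      intro _
      refine ⟨1, by simp, ?_⟩
      rw [map_one, toAdd_one, sum_empty]
    | insert a s ha ih =>
      intro hs
      obtain ⟨g, hg1, hg2⟩ := ih fun x hx => hs x (mem_insert_of_mem hx)
      have haG := hs a (mem_insert_self a s)
      refine ⟨(⟨a, haG⟩ : G) ^ (v a) * g, ?_, ?_⟩
      · rw [prod_insert ha, Subgroup.coe_mul, Subgroup.coe_zpow, hg1]
      · rw [sum_insert ha, map_mul, map_zpow, toAdd_mul, toAdd_zpow, hg2]
        rfl
  obtain ⟨g, hg1, hg2⟩ := e3 (univ.filter (fun a => a ∈ G)) (fun a ha => (mem_filter.1 ha).2)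
  have hp : ∏ a ∈ univ.filter (fun a => a ∈ G), a ^ v a = b := by
    rw [← h2, prod_filter]
    refine prod_congr rfl fun a _ => ?_
    split_ifs with h
    · rfl
    · rw [h1 a h, zpow_zero]
  have hsu : ∑ a ∈ univ.filter (fun a => a ∈ G),
      (v a) • (QuotientAddGroup.mk (Pi.single a (1 : ZMod k)) : (M → ZMod k) ⧸ DG G k) =
      ∑ a, (v a) • (QuotientAddGroup.mk (Pi.single a (1 : ZMod k)) : (M → ZMod k) ⧸ DG G k) := by
    rw [sum_filter]
    refine sum_congr rfl fun a _ => ?_
    split_ifs with h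
    · rfl
    · rw [h1 a h, zero_smul]
  rw [hp] at hg1
  rw [hsu, ← e2] at hg2
  have hgb : g = ⟨b, hb⟩ := Subtype.ext hg1
  rw [hgb] at hg2
  have h5 : (QuotientAddGroup.mk (Pi.single b (1 : ZMod k)) : (M → ZMod k) ⧸ DG G k) =
      QuotientAddGroup.mk w := hg2
  rw [QuotientAddGroup.eq] at h5
  have h6 : w - Pi.single b 1 = -(Pi.single b (1 : ZMod k) : M → ZMod k) + w := by abel
  rw [h6]
  exact h5

theorem adm_iff {G : Subgroup M} {k : ℕ} (hk : 1 ≤ k) {b : M} (hb : b ∈ G) (w : M → ZMod k) :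
    Adm G k b w ↔ w - Pi.single b 1 ∈ DG G k := by
  rw [adm_iff_admZ G hk]
  constructor
  · exact admZ_DG hb
  · intro h
    obtain ⟨v, h1, h2, h3⟩ := DG_admZ h
    refine ⟨v + Pi.single b 1, fun a ha => ?_, ?_, fun a => ?_⟩
    · have h4 : a ≠ b := fun h => ha (h ▸ hb)
      rw [Pi.add_apply, h1 a ha, Pi.single_eq_of_ne h4]
      rfl
    · have h4 : ∀ a : M, a ^ (v + Pi.single b 1 : M → ℤ) a =
          a ^ v a * a ^ (Pi.single b 1 : M → ℤ) a := fun a => by
        rw [Pi.add_apply, zpow_add]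
      rw [prod_congr rfl (fun a _ => h4 a), prod_mul_distrib, h2, prod_single, one_mul, zpow_one]
    · have h5 := h3 a
      rw [Pi.sub_apply] at h5
      rw [Pi.add_apply]
      push_cast
      rw [h5]
      simp only [Pi.single_apply]
      split_ifs <;> simp

/-- the number of the admissible vectors -/
theorem card_adm {G : Subgroup M} {k : ℕ} (hk : 1 ≤ k) {b : M} (hb : b ∈ G) :
    Nat.card {w : M → ZMod k // Adm G k b w} = Nat.card (DG G k) := by
  refine Nat.card_congr ⟨fun w => ⟨w.1 - Pi.single b 1, (adm_iff hk hb w.1).1 w.2⟩,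
    fun u => ⟨u.1 + Pi.single b 1, (adm_iff hk hb _).2 (by
      rw [add_sub_cancel_right]
      exact u.2)⟩, fun w => ?_, fun u => ?_⟩
  · apply Subtype.ext
    show w.1 - Pi.single b 1 + Pi.single b 1 = w.1
    rw [sub_add_cancel]
  · apply Subtype.ext
    show u.1 + Pi.single b 1 - Pi.single b 1 = u.1
    rw [add_sub_cancel_right]

end Pool.Agent.N912.PM
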