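import Pool.Agent.W940.EG.Avx

/-!
Project PM (helper912), part 1: the two-factor method with the product condition only at the primes
`p ≡ 1 mod m`. The relation on the pairs `(π v, π w)` contains the congruence `dt ≡ 1 mod m`, which
selects the primes `p ≡ 1 mod m` since `dt (π v) (π w) = p` for `dt v w = 1`.
(Extension of W940.EG.Avx1, Avx2, Avx.)
-/

set_option autoImplicit false

namespace Pool.Agent.N912.PM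

open Finset Filter
open Pool.Agent.W78.GA (Qd nm prim dt ip lat ball pball edge dedge nm_castR nm_cast mem_ball mem_pball)
open Pool.Agent.W78.EC (Tr av)
open Pool.Agent.W251.GX (Cm)
open Pool.Agent.W78.EG
open Pool.Agent.W940.EG

variable {t c : ℤ} {f : ℕ} {χ : DirichletCharacter ℂ f}

/-- two completely multiplicative functions, `F₁(π) F₂(π) = τ` for the elements whose norm is a
prime `≡ 1 mod m` -/
structure Pm (N m : ℕ) (τ : ℂ) (F₁ F₂ : Qd t c → ℂ) : Prop where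
  cm₁ : Cm N F₁
  cm₂ : Cm N F₂
  nrm : ‖τ‖ = 1
  tw : ∀ π : Qd t c, (nm π).Prime → nm π ≡ 1 [MOD m] → F₁ π * F₂ π = τ

/-- the pairs in `R` with determinant `≡ 1 mod m` -/
def Rd (m : ℕ) (R : Qd t c → Qd t c → Prop) (v w : Qd t c) : Prop :=
  R v w ∧ (m : ℤ) ∣ dt v w - 1

/-- the primes `≡ 1 mod m` in `PQ χ Q` -/
noncomputable def PM (χ : DirichletCharacter ℂ f) (m Q : ℕ) : Finset ℕ :=
  (PQ χ Q).filter (fun p => p ≡ 1 [MOD m])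

theorem Rd_per {q m : ℕ} (hmq : m ∣ q) {R : Qd t c → Qd t c → Prop} (hR : Rel q R)
    (v w v' w' : Qd t c) (h1 : (q : ℤ) ∣ v.re - v'.re) (h2 : (q : ℤ) ∣ v.im - v'.im)
    (h3 : (q : ℤ) ∣ w.re - w'.re) (h4 : (q : ℤ) ∣ w.im - w'.im) : Rd m R v w ↔ Rd m R v' w' := by
  unfold Rd
  refine and_congr (hR.per v w v' w' h1 h2 h3 h4) ?_
  have hz : (m : ℤ) ∣ (q : ℤ) := Int.natCast_dvd_natCast.2 hmq
  have e : dt v w - 1 = (dt v' w' - 1) + ((v.re - v'.re) * w.im + v'.re * (w.im - w'.im) -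
      (v.im - v'.im) * w.re - v'.im * (w.re - w'.re)) := by
    unfold dt
    ring
  have hd : (m : ℤ) ∣ (v.re - v'.re) * w.im + v'.re * (w.im - w'.im) -
      (v.im - v'.im) * w.re - v'.im * (w.re - w'.re) :=
    dvd_sub (dvd_sub (dvd_add ((hz.trans h1).mul_right _) ((hz.trans h4).mul_left _))
      ((hz.trans h2).mul_right _)) ((hz.trans h3).mul_left _)
  rw [e]
  exact (dvd_add_left hd)

theorem dt_mulM (hD : t ^ 2 < 4 * c) (q v w : Qd t c) : dt (q * v) (q * w) = nm q * dt v w := by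
  rw [nmZ hD]
  unfold dt
  simp only [QuadraticAlgebra.re_mul, QuadraticAlgebra.im_mul]
  ring

theorem Rd_dil (hD : t ^ 2 < 4 * c) {q m : ℕ} {R : Qd t c → Qd t c → Prop} (hR : Rel q R)
    {π v w : Qd t c} (hc : Nat.Coprime (nm π) q) (hdt : dt v w = 1) :
    Rd m R (π * v) (π * w) ↔ R v w ∧ nm π ≡ 1 [MOD m] := by
  unfold Rd
  refine and_congr (hR.dil π v w hc) ?_
  rw [dt_mulM hD, hdt, mul_one]
  constructor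
  · intro h
    have h1 : (1 : ℤ) ≡ ((nm π : ℕ) : ℤ) [ZMOD m] := Int.modEq_iff_dvd.2 h
    have h2 : ((1 : ℕ) : ℤ) ≡ ((nm π : ℕ) : ℤ) [ZMOD m] := by exact_mod_cast h1
    exact (Int.natCast_modEq_iff.1 h2).symm
  · intro h
    have h2 : ((1 : ℕ) : ℤ) ≡ ((nm π : ℕ) : ℤ) [ZMOD m] := Int.natCast_modEq_iff.2 h.symm
    have h3 := Int.modEq_iff_dvd.1 h2
    exact_mod_cast h3

theorem sum_dM {N : ℕ} {F₁ F₂ : Qd t c → ℂ} (h1 : Cm N F₁) (h2 : Cm N F₂) {q : ℕ} (hq : 1 ≤ q)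
    {R : Qd t c → Qd t c → Prop}
    (hper : ∀ v w v' w' : Qd t c, (q : ℤ) ∣ v.re - v'.re → (q : ℤ) ∣ v.im - v'.im →
    (q : ℤ) ∣ w.re - w'.re → (q : ℤ) ∣ w.im - w'.im → (R v w ↔ R v' w'))
    (s₁ s₂ s₃ s₄ X : ℝ) (v w : Qd t c) :
    ∑ k ∈ Cs q, d1 R k (lb2 h1 h2 hq s₁ s₂ s₃ s₄ X v) * d2 k (lb2 h1 h2 hq s₁ s₂ s₃ s₄ X w) =
      G2 F₁ F₂ R s₁ s₂ s₃ s₄ X v w := by
  rw [sum_eq_single (cls q w)]
  · have hR' : R (rp (cls q v)) (rp (cls q w)) ↔ R v w := by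
      obtain ⟨a1, a2⟩ := rp_cls hq v
      obtain ⟨b1, b2⟩ := rp_cls hq w
      exact (hper _ _ _ _ a1 a2 b1 b2).symm
    have e2 : d2 (cls q w) (lb2 h1 h2 hq s₁ s₂ s₃ s₄ X w) = wF F₂ s₃ s₄ X w := by
      unfold d2 lb2
      simp only [if_true]
    rw [e2]
    unfold G2
    by_cases h : R v w
    · have e1 : d1 R (cls q w) (lb2 h1 h2 hq s₁ s₂ s₃ s₄ X v) = wF F₁ s₁ s₂ X v := by
        unfold d1 lb2
        exact if_pos (hR'.mpr h)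
      rw [e1, if_pos h]
    · have e1 : d1 R (cls q w) (lb2 h1 h2 hq s₁ s₂ s₃ s₄ X v) = 0 := by
        unfold d1 lb2
        exact if_neg (fun h' => h (hR'.mp h'))
      rw [e1, if_neg h, zero_mul]
  · intro k _ hc
    have e2 : d2 k (lb2 h1 h2 hq s₁ s₂ s₃ s₄ X w) = 0 := by
      unfold d2 lb2
      simp only
      rw [if_neg (fun h => hc h.symm)]
    rw [e2, mul_zero]
  · intro h
    exact absurd (cls_mem hq w) h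

theorem G2_mulM (hD : t ^ 2 < 4 * c) {N m : ℕ} {τ : ℂ} {F₁ F₂ : Qd t c → ℂ} (hPr : Pm N m τ F₁ F₂)
    {q : ℕ} {R : Qd t c → Qd t c → Prop} (hR : Rel q R) {p : ℕ} (hp : p.Prime)
    (hpq : Nat.Coprime p q) {π : Qd t c} (hπ : nm π = p) {s₁ s₂ s₃ s₄ X : ℝ} (h0 : 0 ≤ s₁ * X)
    (h0' : 0 ≤ s₃ * X) {v w : Qd t c} (hdt : dt v w = 1) :
    G2 F₁ F₂ (Rd m R) s₁ s₂ s₃ s₄ X (π * v) (π * w) =
      if p ≡ 1 [MOD m] then τ * G2 F₁ F₂ R s₁ s₂ s₃ s₄ (X / p) v w else 0 := by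
  unfold G2
  have h1 : Rd m R (π * v) (π * w) ↔ R v w ∧ p ≡ 1 [MOD m] := by
    have h2 := Rd_dil hD (m := m) hR (π := π) (v := v) (w := w) (by rw [hπ]; exact hpq) hdt
    rwa [hπ] at h2
  by_cases hm : p ≡ 1 [MOD m]
  · have h2 : F₁ π * F₂ π = τ := hPr.tw π (by rw [hπ]; exact hp) (by rw [hπ]; exact hm)
    rw [if_pos hm, wF_mul hPr.cm₁ hp hπ h0, wF_mul hPr.cm₂ hp hπ h0', ← h2]
    by_cases h : R v w
    · rw [if_pos (h1.mpr ⟨h, hm⟩), if_pos h]; ring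
    · rw [if_neg (fun h' => h (h1.mp h').1), if_neg h, mul_zero]
  · rw [if_neg hm, if_neg (fun h' => hm (h1.mp h').2)]

open scoped Classical in
/-- the loss for one prime -/
theorem AG_splitM (hD : t ^ 2 < 4 * c) {N m : ℕ} {τ : ℂ} {F₁ F₂ : Qd t c → ℂ}
    (hPr : Pm N m τ F₁ F₂) {q : ℕ} (hq : 1 ≤ q) (hmq : m ∣ q)
    {R : Qd t c → Qd t c → Prop} (hR : Rel q R) {p : ℕ} (hp : p.Prime) (hpq : Nat.Coprime p q)
    {π : Qd t c}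
    (hπ : nm π = p) {s s₁ s₂ s₃ s₄ X : ℝ} (h0 : 0 ≤ s₁ * X) (h0' : 0 ≤ s₃ * X)
    (hs1 : s * X ≤ s₁ * X) (hs3 : s * X ≤ s₃ * X) {K : ℕ} {κ : ℝ} {Q : ℕ} {δ : ℝ}
    (hG : ∀ e, InG K κ Q X π e → 0 < pp e.1 e.2)
    (hL : (((dedge t c (X / p)).filter (fun e => 0 < pp e.1 e.2 ∧ s * (X / p) < (nm e.1 : ℝ) ∧
      s * (X / p) < (nm e.2 : ℝ) ∧ ¬ InG K κ Q X π e)).card : ℝ) ≤ δ) :
    ‖(if p ≡ 1 [MOD m] then τ * AG (g2 F₁ F₂ R) s₁ s₂ s₃ s₄ (X / p) else 0) -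
      ∑ k ∈ Cs q, ∑ e ∈ (dedge t c (X / p)).filter (InG K κ Q X π),
        d1 (Rd m R) k (lb2 hPr.cm₁ hPr.cm₂ hq s₁ s₂ s₃ s₄ X (π * e.1)) *
          d2 k (lb2 hPr.cm₁ hPr.cm₂ hq s₁ s₂ s₃ s₄ X (π * e.2))‖ ≤ δ := by
  have hp0 : (0 : ℝ) < p := by exact_mod_cast hp.pos
  have hdet : ∀ e ∈ dedge t c (X / p), dt e.1 e.2 = 1 := by
    intro e he
    unfold dedge at he
    exact (mem_filter.1 he).2
  have hII : (dedge t c (X / p)).filter (InG K κ Q X π) =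
      ((dedge t c (X / p)).filter (fun e => 0 < pp e.1 e.2)).filter (InG K κ Q X π) := by
    rw [filter_filter]
    exact filter_congr fun e _ => ⟨fun h => ⟨hG e h, h⟩, fun h => h.2⟩
  rw [sum_comm]
  simp only [sum_dM hPr.cm₁ hPr.cm₂ hq (Rd_per hmq hR)]
  have hsum : ∑ e ∈ (dedge t c (X / p)).filter (InG K κ Q X π),
      G2 F₁ F₂ (Rd m R) s₁ s₂ s₃ s₄ X (π * e.1) (π * e.2) =
      ∑ e ∈ (dedge t c (X / p)).filter (InG K κ Q X π),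
      (if p ≡ 1 [MOD m] then τ * G2 F₁ F₂ R s₁ s₂ s₃ s₄ (X / p) e.1 e.2 else 0) :=
    sum_congr rfl fun e he => G2_mulM hD hPr hR hp hpq hπ h0 h0' (hdet e (mem_filter.1 he).1)
  rw [hsum]
  have hδ : 0 ≤ δ := le_trans (Nat.cast_nonneg _) hL
  by_cases hm : p ≡ 1 [MOD m]
  swap
  · simp only [if_neg hm]
    rw [sum_const_zero, sub_zero, norm_zero]
    exact hδ
  simp only [if_pos hm]
  rw [hII, AG_eq, mul_sum,
    ← sum_filter_add_sum_filter_not ((dedge t c (X / p)).filter (fun e => 0 < pp e.1 e.2))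
      (InG K κ Q X π), add_sub_cancel_left]
  refine (norm_sum_le _ _).trans (le_trans ?_ hL)
  have h1 : ∀ e ∈ ((dedge t c (X / p)).filter (fun e => 0 < pp e.1 e.2)).filter
      (fun e => ¬ InG K κ Q X π e),
      ‖τ * G2 F₁ F₂ R s₁ s₂ s₃ s₄ (X / p) e.1 e.2‖ ≤
      if s * (X / p) < (nm e.1 : ℝ) ∧ s * (X / p) < (nm e.2 : ℝ) then (1 : ℝ) else 0 := by
    intro e _
    rw [norm_mul, hPr.nrm, one_mul]
    split_ifs with hc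
    · exact norm_G2 hPr.cm₁ hPr.cm₂ _ _ _ _ _ _ _ _
    · have ha : s * (X / p) ≤ s₁ * (X / p) := by
        rw [← mul_div_assoc, ← mul_div_assoc]
        exact div_le_div_of_nonneg_right hs1 hp0.le
      have hb : s * (X / p) ≤ s₃ * (X / p) := by
        rw [← mul_div_assoc, ← mul_div_assoc]
        exact div_le_div_of_nonneg_right hs3 hp0.le
      have hz : G2 F₁ F₂ R s₁ s₂ s₃ s₄ (X / p) e.1 e.2 = 0 := by
        unfold G2 wF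
        by_cases h2 : s₁ * (X / p) < (nm e.1 : ℝ) ∧ (nm e.1 : ℝ) ≤ s₂ * (X / p)
        · have h3 : ¬ (s₃ * (X / p) < (nm e.2 : ℝ) ∧ (nm e.2 : ℝ) ≤ s₄ * (X / p)) := by
            intro h3
            exact hc ⟨by linarith [h2.1], by linarith [h3.1]⟩
          rw [if_neg h3]
          simp
        · rw [if_neg h2]
          simp
      rw [hz, norm_zero]
  refine (sum_le_sum h1).trans ?_
  rw [sum_boole, filter_filter, filter_filter]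
  refine le_of_eq ?_
  congr 2
  refine filter_congr fun e _ => ?_
  tauto

open scoped Classical in
/-- the estimate for fixed `X` -/
theorem per_X2M (hF : Fd t c f χ) (hp : S_PERX t c χ) {N m : ℕ} {τ : ℂ} {F₁ F₂ : Qd t c → ℂ}
    (hPr : Pm N m τ F₁ F₂) {q : ℕ} (hq : 1 ≤ q) (hmq : m ∣ q) {R : Qd t c → Qd t c → Prop} (hR : Rel q R) {K : ℕ} {κ : ℝ} {Q : ℕ}
    {s s₁ s₂ s₃ s₄ X ε₃ ε' : ℝ} (hs₁ : 0 < s₁) (hs₃ : 0 < s₃) (hs1 : s ≤ s₁) (hs3 : s ≤ s₃)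
    (hK : 1 ≤ K) (hκ : 0 < κ) (hQ : 1 ≤ Q) (hqQ : q ≤ Q) (hX : f * (K * Q : ℝ) ≤ X)
    (ϖ : ℕ → Qd t c) (rr : ℕ → ℤ) (hϖ : ∀ p ∈ PQ χ Q, nm (ϖ p) = p ∧ lat p (rr p) (ϖ p) ∧
      (p : ℤ) ∣ rr p ^ 2 - t * rr p + c)
    (ζ₁ ζ₂ : ℕ × ℕ → ℕ → Tr (Lab N q) → ℕ × ℕ × ℕ × ℕ → ℝ)
    (hζ : ∀ k ∈ Cs q, ∀ e ∈ good t c K κ Q X, ∀ p ∈ PQ χ Q,
      (((ζ₁ k p (TT (lb2 hPr.cm₁ hPr.cm₂ hq s₁ s₂ s₃ s₄ X) X e) (res p e) : ℝ) : ℂ) +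
        Complex.I * ((ζ₂ k p (TT (lb2 hPr.cm₁ hPr.cm₂ hq s₁ s₂ s₃ s₄ X) X e) (res p e) : ℝ) : ℂ) =
      (((p : ℝ) + 1) / (2 * Q) : ℝ) * ∑ z ∈ cone X e.1 e.2, ∑ w ∈ cone X e.1 e.2,
        (if dt z w = p ∧ lat p (rr p) z then d1 (Rd m R) k (lb2 hPr.cm₁ hPr.cm₂ hq s₁ s₂ s₃ s₄ X z) *
          d2 k (lb2 hPr.cm₁ hPr.cm₂ hq s₁ s₂ s₃ s₄ X w) else 0)) ∧
      (((av p (ζ₁ k p) (TT (lb2 hPr.cm₁ hPr.cm₂ hq s₁ s₂ s₃ s₄ X) X e) : ℝ) : ℂ) +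
        Complex.I * ((av p (ζ₂ k p) (TT (lb2 hPr.cm₁ hPr.cm₂ hq s₁ s₂ s₃ s₄ X) X e) : ℝ) : ℂ) =
      (1 / (2 * (Q : ℝ)) : ℝ) * ∑ z ∈ cone X e.1 e.2, ∑ w ∈ cone X e.1 e.2,
        (if dt z w = p then d1 (Rd m R) k (lb2 hPr.cm₁ hPr.cm₂ hq s₁ s₂ s₃ s₄ X z) *
          d2 k (lb2 hPr.cm₁ hPr.cm₂ hq s₁ s₂ s₃ s₄ X w) else 0)))
    (hB : ∀ k ∈ Cs q, ∀ α : Qd t c → ℝ, (∀ z, |α z| ≤ 1) → (∀ z, α z ≠ 0 → s₁ * X < (nm z : ℝ)) →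
      |∑ e ∈ good t c K κ Q X, ∑ v ∈ cone X e.1 e.2, ∑ w ∈ cw X s₃ s₄ e.1 e.2,
        α v * cl q (rp k) (fun z => (F₂ z).re) w * th χ Q (dt v w)| ≤ ε₃ * X * Q ∧
      |∑ e ∈ good t c K κ Q X, ∑ v ∈ cone X e.1 e.2, ∑ w ∈ cw X s₃ s₄ e.1 e.2,
        α v * cl q (rp k) (fun z => (F₂ z).im) w * th χ Q (dt v w)| ≤ ε₃ * X * Q)
    (hε' : 0 ≤ ε')
    (hL : ∀ p ∈ PQ χ Q, ∀ π : Qd t c, nm π = p →
      (((dedge t c (X / p)).filter (fun e => 0 < pp e.1 e.2 ∧ s * (X / p) < (nm e.1 : ℝ) ∧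
        s * (X / p) < (nm e.2 : ℝ) ∧ ¬ InG K κ Q X π e)).card : ℝ) ≤ ε' * (X / p)) :
    ‖∑ p ∈ PM χ m Q, ((Real.log p * ((p : ℝ) + 1) : ℝ) : ℂ) *
        AG (g2 F₁ F₂ R) s₁ s₂ s₃ s₄ (X / p)‖ ≤
      2 * Q * ∑ k ∈ Cs q, ∑ e ∈ edge t c (X / (K * Q)),
        (|∑ p ∈ PQ χ Q, Real.log p * (ζ₁ k p (TT (lb2 hPr.cm₁ hPr.cm₂ hq s₁ s₂ s₃ s₄ X) X e) (res p e) -
          av p (ζ₁ k p) (TT (lb2 hPr.cm₁ hPr.cm₂ hq s₁ s₂ s₃ s₄ X) X e))| +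
        |∑ p ∈ PQ χ Q, Real.log p * (ζ₂ k p (TT (lb2 hPr.cm₁ hPr.cm₂ hq s₁ s₂ s₃ s₄ X) X e) (res p e) -
          av p (ζ₂ k p) (TT (lb2 hPr.cm₁ hPr.cm₂ hq s₁ s₂ s₃ s₄ X) X e))|) +
      (4 * (Cs q).card * ε₃ * X * Q + 2 * ε' * X * ∑ p ∈ PQ χ Q, Real.log p) := by
  have hKQ : (0 : ℝ) < K * Q := by
    have h1 : (1 : ℝ) ≤ K := by exact_mod_cast hK
    have h2 : (1 : ℝ) ≤ Q := by exact_mod_cast hQ
    positivity
  have hX0 : 0 ≤ X := le_trans (by positivity) hX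
  obtain ⟨S, hS⟩ : ∃ S : ℕ × ℕ → ℕ → ℂ, S = fun (k : ℕ × ℕ) (p : ℕ) =>
      ∑ e ∈ (dedge t c (X / p)).filter (InG K κ Q X (ϖ p)),
        d1 (Rd m R) k (lb2 hPr.cm₁ hPr.cm₂ hq s₁ s₂ s₃ s₄ X (ϖ p * e.1)) *
          d2 k (lb2 hPr.cm₁ hPr.cm₂ hq s₁ s₂ s₃ s₄ X (ϖ p * e.2)) := ⟨_, rfl⟩
  -- each class
  have hc1 : ∀ k ∈ Cs q, ‖∑ p ∈ PQ χ Q, ((Real.log p * ((p : ℝ) + 1) : ℝ) : ℂ) * S k p‖ ≤
      2 * Q * ∑ e ∈ edge t c (X / (K * Q)),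
        (|∑ p ∈ PQ χ Q, Real.log p * (ζ₁ k p (TT (lb2 hPr.cm₁ hPr.cm₂ hq s₁ s₂ s₃ s₄ X) X e) (res p e) -
          av p (ζ₁ k p) (TT (lb2 hPr.cm₁ hPr.cm₂ hq s₁ s₂ s₃ s₄ X) X e))| +
        |∑ p ∈ PQ χ Q, Real.log p * (ζ₂ k p (TT (lb2 hPr.cm₁ hPr.cm₂ hq s₁ s₂ s₃ s₄ X) X e) (res p e) -
          av p (ζ₂ k p) (TT (lb2 hPr.cm₁ hPr.cm₂ hq s₁ s₂ s₃ s₄ X) X e))|) +
      4 * (ε₃ * X * Q) := by
    intro k hc
    have h1 := hp K κ Q X (Lab N q) (d1 (Rd m R) k) (d2 k) (lb2 hPr.cm₁ hPr.cm₂ hq s₁ s₂ s₃ s₄ X) ϖ rr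
      (ζ₁ k) (ζ₂ k) hK hκ hQ hX hϖ (hζ k hc)
    have h2 := bil hPr.cm₁ hPr.cm₂ hq (Rd m R) (K := K) (κ := κ) (Q := Q) (s₁ := s₁) (s₂ := s₂)
      (s₃ := s₃) (s₄ := s₄) (X := X) k hc (fun α a1 a2 => (hB k hc α a1 a2).1)
      (fun α a1 a2 => (hB k hc α a1 a2).2)
    rw [hS]
    exact h1.trans (by linarith)
  -- the loss
  have hτ : ‖τ‖ = 1 := hPr.nrm
  have hloss : ‖∑ p ∈ PQ χ Q, ((Real.log p * ((p : ℝ) + 1) : ℝ) : ℂ) *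
      ((if p ≡ 1 [MOD m] then τ * AG (g2 F₁ F₂ R) s₁ s₂ s₃ s₄ (X / p) else 0) -
        ∑ k ∈ Cs q, S k p)‖ ≤
      2 * ε' * X * ∑ p ∈ PQ χ Q, Real.log p := by
    rw [mul_sum]
    refine (norm_sum_le _ _).trans (sum_le_sum fun p hpm => ?_)
    have hpp := (PQ_mem hpm).2.2.1
    have hp0 : (0 : ℝ) < p := by exact_mod_cast hpp.pos
    have hp1 : (1 : ℝ) ≤ p := by exact_mod_cast hpp.one_lt.le
    have hcop : Nat.Coprime p q := by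
      rw [Nat.Prime.coprime_iff_not_dvd hpp]
      intro hd
      have h1 := Nat.le_of_dvd (by omega) hd
      have h2 := (PQ_mem hpm).1
      omega
    have h1 := AG_splitM (Pool.Agent.W804.EG.hD_of hF) hPr hq hmq hR hpp hcop (hϖ p hpm).1 (s := s) (s₁ := s₁) (s₂ := s₂) (s₃ := s₃)
      (s₄ := s₄) (X := X) (by positivity) (by positivity) (mul_le_mul_of_nonneg_right hs1 hX0)
      (mul_le_mul_of_nonneg_right hs3 hX0) (fun e he => InG_pp hF hK hκ hQ hX he)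
      (hL p hpm _ (hϖ p hpm).1)
    rw [norm_mul, Complex.norm_real, Real.norm_eq_abs,
      abs_of_nonneg (mul_nonneg (log_nonneg_PQ hpm) (by positivity))]
    have h1' : ‖(if p ≡ 1 [MOD m] then τ * AG (g2 F₁ F₂ R) s₁ s₂ s₃ s₄ (X / p) else 0) -
        ∑ k ∈ Cs q, S k p‖ ≤ ε' * (X / p) := by
      rw [hS]
      exact h1
    calc Real.log p * ((p : ℝ) + 1) * ‖(if p ≡ 1 [MOD m] then
          τ * AG (g2 F₁ F₂ R) s₁ s₂ s₃ s₄ (X / p) else 0) - ∑ k ∈ Cs q, S k p‖ ≤ Real.log p * ((p : ℝ) + 1) * (ε' * (X / p)) :=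
          mul_le_mul_of_nonneg_left h1' (mul_nonneg (log_nonneg_PQ hpm) (by positivity))
      _ = Real.log p * ε' * X * (((p : ℝ) + 1) / p) := by ring
      _ ≤ Real.log p * ε' * X * 2 := by
          refine mul_le_mul_of_nonneg_left ?_
            (mul_nonneg (mul_nonneg (log_nonneg_PQ hpm) hε') hX0)
          rw [div_le_iff₀ hp0]
          linarith
      _ = 2 * ε' * X * Real.log p := by ring
  have hdec : τ * ∑ p ∈ PM χ m Q, ((Real.log p * ((p : ℝ) + 1) : ℝ) : ℂ) *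
        AG (g2 F₁ F₂ R) s₁ s₂ s₃ s₄ (X / p) =
      ∑ p ∈ PQ χ Q, ((Real.log p * ((p : ℝ) + 1) : ℝ) : ℂ) *
        ((if p ≡ 1 [MOD m] then τ * AG (g2 F₁ F₂ R) s₁ s₂ s₃ s₄ (X / p) else 0) -
          ∑ k ∈ Cs q, S k p) +
      ∑ k ∈ Cs q, ∑ p ∈ PQ χ Q, ((Real.log p * ((p : ℝ) + 1) : ℝ) : ℂ) * S k p := by
    unfold PM
    rw [sum_comm, ← sum_add_distrib, mul_sum, sum_filter]
    refine sum_congr rfl fun p _ => ?_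
    rw [← mul_sum]
    split_ifs
    · ring
    · ring
  have hnorm : ‖∑ p ∈ PM χ m Q, ((Real.log p * ((p : ℝ) + 1) : ℝ) : ℂ) *
        AG (g2 F₁ F₂ R) s₁ s₂ s₃ s₄ (X / p)‖ =
      ‖τ * ∑ p ∈ PM χ m Q, ((Real.log p * ((p : ℝ) + 1) : ℝ) : ℂ) *
        AG (g2 F₁ F₂ R) s₁ s₂ s₃ s₄ (X / p)‖ := by rw [norm_mul, hτ, one_mul]
  rw [hnorm, hdec]
  refine (norm_add_le _ _).trans ?_
  have hcs := (norm_sum_le (Cs q) (fun k => ∑ p ∈ PQ χ Q,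
    ((Real.log p * ((p : ℝ) + 1) : ℝ) : ℂ) * S k p)).trans (sum_le_sum hc1)
  rw [sum_add_distrib, sum_const, nsmul_eq_mul, ← mul_sum] at hcs
  have e : ((Cs q).card : ℝ) * (4 * (ε₃ * X * Q)) = 4 * (Cs q).card * ε₃ * X * Q := by ring
  rw [e] at hcs
  linarith


end Pool.Agent.N912.PM
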