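import Pool.Agent.N912.PM.Alg
import Pool.Agent.V11296.CW1

/-!
Project PM (helper912), part 8: the numbers of prime factors in the residue classes modulo `m`, each
modulo `k`.
-/

set_option autoImplicit false

namespace Pool.Agent.N912.PM

open Finset
open Pool.Agent.V11296.CV (Df)
open Pool.Agent.V11296.CW (Gw)

/-- the numbers of prime factors of `n` (with multiplicity) in the classes of `(Z/m)^*`, modulo `k` -/
def cvec (m k n : ℕ) : (ZMod m)ˣ → ZMod k := fun a =>
  ((n.primeFactorsList.countP (fun p : ℕ => decide ((p : ZMod m) = (a : ZMod m))) : ℕ) : ZMod k)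

/-- the residue classes modulo `m`, prime to `m`, of the numbers `x^2+txy+cy^2` -/
def NG (t c m : ℕ) : Subgroup (ZMod m)ˣ where
  carrier := {a | ∃ x y : ℤ, ((x ^ 2 + t * x * y + c * y ^ 2 : ℤ) : ZMod m) = (a : ZMod m)}
  mul_mem' := by
    rintro a b ⟨x, y, h1⟩ ⟨u, v, h2⟩
    refine ⟨x * u - c * y * v, x * v + y * u + t * y * v, ?_⟩
    rw [Units.val_mul, ← h1, ← h2]
    push_cast
    ring
  one_mem' := ⟨1, 0, by simp⟩
  inv_mem' := by
    rintro a ⟨x, y, h1⟩
    obtain ⟨b, hb⟩ : ∃ b : ℤ, (b : ZMod m) = ((a⁻¹ : (ZMod m)ˣ) : ZMod m) :=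
      ZMod.intCast_surjective _
    refine ⟨x * b, y * b, ?_⟩
    have h2 : (((x * b) ^ 2 + t * (x * b) * (y * b) + c * (y * b) ^ 2 : ℤ) : ZMod m) =
        ((x ^ 2 + t * x * y + c * y ^ 2 : ℤ) : ZMod m) * (b : ZMod m) ^ 2 := by
      push_cast
      ring
    rw [h2, h1, hb, pow_two, ← mul_assoc, Units.mul_inv, one_mul]

/-- the vector of the class of the norm -/
def Ev (t c m k : ℕ) (x y : ℤ) : (ZMod m)ˣ → ZMod k := fun a =>
  if ((x ^ 2 + t * x * y + c * y ^ 2 : ℤ) : ZMod m) = (a : ZMod m) then 1 else 0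

section

variable {t c m k : ℕ}

theorem Ev_single {x y : ℤ} {a : (ZMod m)ˣ}
    (h : ((x ^ 2 + t * x * y + c * y ^ 2 : ℤ) : ZMod m) = (a : ZMod m)) :
    Ev t c m k x y = Pi.single a 1 := by
  funext b
  unfold Ev
  rw [h]
  by_cases hb : b = a
  · rw [hb, if_pos rfl, Pi.single_eq_same]
  · rw [if_neg (fun h' => hb (Units.ext h').symm), Pi.single_eq_of_ne hb]

theorem cvec_mul {x y : ℕ} (hx : x ≠ 0) (hy : y ≠ 0) :
    cvec m k (x * y) = cvec m k x + cvec m k y := by
  funext a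
  show ((((x * y).primeFactorsList.countP _ : ℕ)) : ZMod k) =
    ((x.primeFactorsList.countP _ : ℕ) : ZMod k) + ((y.primeFactorsList.countP _ : ℕ) : ZMod k)
  rw [(Nat.perm_primeFactorsList_mul hx hy).countP_eq, List.countP_append]
  push_cast
  rfl

theorem cvec_prime {p : ℕ} (hp : p.Prime) {a : (ZMod m)ˣ} (h : (p : ZMod m) = (a : ZMod m)) :
    cvec m k p = Pi.single a 1 := by
  funext b
  unfold cvec
  rw [Nat.primeFactorsList_prime hp]
  by_cases hb : b = a
  · rw [hb, Pi.single_eq_same, List.countP_cons_of_pos (by simpa using h)]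
    simp
  · rw [Pi.single_eq_of_ne hb, List.countP_cons_of_neg]
    · simp
    · rw [h]
      simpa using fun h' => hb (Units.ext h').symm

theorem gw_cvec (hm : 1 ≤ m) : Gw t c m (Ev t c m k) (cvec m k) where
  pos := hm
  add := fun x y hx hy => cvec_mul hx hy
  per := by
    intro x y u v h1 h2
    have h3 : ((x ^ 2 + t * x * y + c * y ^ 2 : ℤ) : ZMod m) =
        ((u ^ 2 + t * u * v + c * v ^ 2 : ℤ) : ZMod m) := by
      rw [ZMod.intCast_eq_intCast_iff]
      exact ((h1.pow 2).add ((h1.mul_left _).mul h2)).add ((h2.pow 2).mul_left _)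
    funext a
    unfold Ev
    rw [h3]
  val := by
    intro x y p hp hpm hxy
    have hc : p.Coprime m := (Nat.Prime.coprime_iff_not_dvd hp).2 hpm
    have h1 : (p : ZMod m) = ((ZMod.unitOfCoprime p hc : (ZMod m)ˣ) : ZMod m) := by simp
    rw [cvec_prime hp h1]
    refine (Ev_single ?_).symm
    rw [hxy, ← h1]
    simp

theorem unit_of_coprime {x : ℤ} (h : IsCoprime x (m : ℤ)) :
    ∃ a : (ZMod m)ˣ, (x : ZMod m) = (a : ZMod m) := by
  obtain ⟨u, v, huv⟩ := h
  have h1 : (x : ZMod m) * (u : ZMod m) = 1 := by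
    have h2 : ((u * x + v * m : ℤ) : ZMod m) = 1 := by rw [huv]; simp
    push_cast at h2
    rw [ZMod.natCast_self, mul_zero, add_zero] at h2
    rw [mul_comm]
    exact h2
  exact ⟨Units.mkOfMulEqOne _ _ h1, rfl⟩

theorem df_eq (hm : 1 ≤ m) : Df t c m (Ev t c m k) = DG (NG t c m) k := by
  haveI : NeZero m := ⟨by omega⟩
  unfold Df DG
  refine le_antisymm ?_ ?_
  · rw [AddSubgroup.closure_le]
    rintro g ⟨x, y, u, v, h1, h2, rfl⟩
    obtain ⟨a, ha⟩ := unit_of_coprime h1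
    obtain ⟨b, hb⟩ := unit_of_coprime h2
    refine AddSubgroup.subset_closure ⟨a, ⟨x, y, ha⟩, b, ⟨u, v, hb⟩, ?_⟩
    rw [Ev_single ha, Ev_single hb, Ev_single (a := a * b)]
    rw [Units.val_mul, ← ha, ← hb]
    push_cast
    ring
  · rw [AddSubgroup.closure_le]
    rintro g ⟨a, ⟨x, y, ha⟩, b, ⟨u, v, hb⟩, rfl⟩
    refine AddSubgroup.subset_closure ⟨x, y, u, v, ?_, ?_, ?_⟩
    · refine IsCoprime.symm ((ZMod.coe_int_isUnit_iff_isCoprime _ m).1 ?_)
      rw [ha]
      exact a.isUnit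
    · refine IsCoprime.symm ((ZMod.coe_int_isUnit_iff_isCoprime _ m).1 ?_)
      rw [hb]
      exact b.isUnit
    · rw [Ev_single ha, Ev_single hb, Ev_single (a := a * b)]
      rw [Units.val_mul, ← ha, ← hb]
      push_cast
      ring

end

end Pool.Agent.N912.PM
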