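import Pool.Agent.N912.PM.TW
import Pool.Agent.V11296.CW3

/-!
Project PM (helper912), part 7: pairs of completely additive functions with values in a finite abelian
group `A`, `H₁(p) + H₂(p) = τ` for the primes `p ≡ 1 mod m` (extension of V11296.CW1-CW3).
-/

set_option autoImplicit false

namespace Pool.Agent.N912.PM

open Finset Filter
open Pool.Agent.W78.GA (Qd nm nm_cast nm_mul nm_pos mul_star_self' prim prim_iff prim_of_dvd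
  prim_star prim_ne_zero)
open Pool.Agent.W78.EG
open Pool.Agent.W251.EG
open Pool.Agent.W251.EX (Sqp tt sum_null)
open Pool.Agent.V11296.CV (chpow chnrm)
open Pool.Agent.V11296.CW (fourier2 wd conv_p cw cw_mono)

variable {A : Type} [AddCommGroup A]

/-- two completely additive functions with values in `A`, with `H₁(p) + H₂(p) = τ` for the primes
`p ≡ 1 mod m`; the characters which are not trivial on `D` give an aperiodic function -/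
structure Gg (t c : ℕ) {f : ℕ} (χ : DirichletCharacter ℂ f) (m : ℕ) (τ : A) (D : AddSubgroup A)
    (H₁ H₂ : ℕ → A) : Prop where
  mod : 1 ≤ m
  add₁ : ∀ x y : ℕ, x ≠ 0 → y ≠ 0 → H₁ (x * y) = H₁ x + H₁ y
  add₂ : ∀ x y : ℕ, x ≠ 0 → y ≠ 0 → H₂ (x * y) = H₂ x + H₂ y
  two : ∀ p : ℕ, p.Prime → χ (p : ZMod f) ≠ -1 → p ≡ 1 [MOD m] → H₁ p + H₂ p = τ
  apd : ∀ ψ : AddChar A ℂ, (∃ d ∈ D, ψ d ≠ 1) →
    Apd (Nat.card A) (fun z : Qd (t : ℤ) (c : ℤ) => ψ (H₁ (nm z))) ∨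
    Apd (Nat.card A) (fun z : Qd (t : ℤ) (c : ℤ) => ψ (H₂ (nm z)))

/-- admissible values -/
def Adp (t c q a r : ℕ) (D : AddSubgroup A) (H₁ H₂ : ℕ → A) (g : A) : Prop :=
  ∀ n d e : ℕ, n ≡ a [MOD q] → d ≡ r [MOD q] → d * e = n ^ 2 + t * n + c →
    H₁ d + H₂ e - g ∈ D

/-- admissible values, for all classes of `d` -/
def Adq (t c q a : ℕ) (D : AddSubgroup A) (H₁ H₂ : ℕ → A) (g : A) : Prop :=
  ∀ n d e : ℕ, n ≡ a [MOD q] → d * e = n ^ 2 + t * n + c → H₁ d + H₂ e - g ∈ D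

section

variable {t c : ℕ} {f : ℕ} {χ : DirichletCharacter ℂ f} {m : ℕ} {τ : A} {D : AddSubgroup A}
  {H₁ H₂ : ℕ → A}

theorem fgg [Finite A] (h : Gg t c χ m τ D H₁ H₂) (ψ : AddChar A ℂ) :
    FGm χ (Nat.card A) m (ψ τ) (fun n => ψ (H₁ n)) (fun n => ψ (H₂ n)) where
  pos := Nat.card_pos
  mod := h.mod
  m₁ := fun x y hx hy => by rw [h.add₁ x y hx hy, AddChar.map_add_eq_mul]
  m₂ := fun x y hx hy => by rw [h.add₂ x y hx hy, AddChar.map_add_eq_mul]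
  p₁ := fun n => chpow ψ _
  p₂ := fun n => chpow ψ _
  nrm := chnrm ψ _
  tw := fun p hp h1 h2 => by rw [← AddChar.map_add_eq_mul, h.two p hp h1 h2]

theorem adp_SW {q a r : ℕ} {s₁ s₂ s₃ s₄ : ℝ} {X : ℕ} {g : A}
    (hal : Adp t c q a r D H₁ H₂ g)
    {p : ℕ × ℕ} (hp : p ∈ SW (t : ℤ) (c : ℤ) q a r s₁ s₂ s₃ s₄ X) :
    H₁ p.1 + H₂ p.2 - g ∈ D := by
  obtain ⟨_, ⟨n, _, h5, h6, h7⟩, _⟩ := mem_SWn.1 hp
  exact hal n p.1 p.2 h6 h7 h5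

open scoped Classical in
theorem avg_tw3 [Finite A] (hF : Fd (t : ℤ) (c : ℤ) f χ) (h : Gg t c χ m τ D H₁ H₂) (g : A)
    (q a r : ℕ) (hq : 1 ≤ q) (hal : Adp t c q a r D H₁ H₂ g) (s₁ s₂ s₃ s₄ : ℝ) (h1 : 0 ≤ s₁)
    (h2 : s₁ < s₂) (h3 : s₂ ≤ 1) (h4 : 0 ≤ s₃) (h5 : s₃ < s₄) (h6 : s₄ ≤ 1) (ε : ℝ) (hε : 0 < ε) :
    ∃ N₀ : ℕ, ∀ N' : ℕ, N₀ ≤ N' → ∑ X ∈ Icc 1 N', 1 / (X : ℝ) ^ 2 *
      ‖∑ p ∈ SW (t : ℤ) (c : ℤ) q a r s₁ s₂ s₃ s₄ X,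
        ((if H₁ p.1 + H₂ p.2 = g then (1 : ℂ) else 0) - 1 / (Nat.card (D) : ℂ))‖ ≤
      ε * Real.log N' := by
  refine fourier2 g (fun X => SW (t : ℤ) (c : ℤ) q a r s₁ s₂ s₃ s₄ X)
    (fun X p hp => adp_SW hal hp) (fun ψ hψ ε' hε' => ?_) ε hε
  obtain ⟨N₀, hN₀⟩ := twmG hF (Nat.card A) m (ψ τ) (fun n => ψ (H₁ n)) (fun n => ψ (H₂ n))
    (fgg h ψ) (h.apd ψ hψ) q a r 0 hq s₁ s₂ s₃ s₄ h1 h2 h3 h4 h5 h6 ε' hε'
  refine ⟨N₀, fun N' hN' => le_trans (le_of_eq ?_) (hN₀ N' hN')⟩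
  refine sum_congr rfl fun X _ => ?_
  have e0 : (SW (t : ℤ) (c : ℤ) q a r s₁ s₂ s₃ s₄ X).filter (Sqp 0) =
      SW (t : ℤ) (c : ℤ) q a r s₁ s₂ s₃ s₄ X := by
    refine filter_true_of_mem fun p _ l hl hp => ?_
    have := hp.pos
    omega
  rw [e0]

open scoped Classical in
theorem avg_ts3 [Finite A] (hF : Fd (t : ℤ) (c : ℤ) f χ) (h : Gg t c χ m τ D H₁ H₂) (g : A)
    (q a r : ℕ) (hq : 1 ≤ q) (hal : Adp t c q a r D H₁ H₂ g) (s₁ s₂ s₃ s₄ : ℝ) (h1 : 0 ≤ s₁)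
    (h2 : s₁ < s₂) (h3 : s₂ ≤ 1) (h4 : 0 ≤ s₃) (h5 : s₃ < s₄) (h6 : s₄ ≤ 1) (ε : ℝ) (hε : 0 < ε) :
    ∃ N₀ : ℕ, ∀ N' : ℕ, N₀ ≤ N' → ∑ X ∈ Icc 1 N', 1 / (X : ℝ) ^ 2 *
      ‖∑ p ∈ (SW (t : ℤ) (c : ℤ) q a r s₁ s₂ s₃ s₄ X).filter (fun p => Squarefree (p.1 * p.2)),
        ((if H₁ p.1 + H₂ p.2 = g then (1 : ℂ) else 0) - 1 / (Nat.card (D) : ℂ))‖ ≤
      ε * Real.log N' := by
  refine fourier2 g (fun X => (SW (t : ℤ) (c : ℤ) q a r s₁ s₂ s₃ s₄ X).filter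
    (fun p => Squarefree (p.1 * p.2))) (fun X p hp => adp_SW hal (mem_filter.1 hp).1)
    (fun ψ hψ ε' hε' => ?_) ε hε
  exact tsmG hF (Nat.card A) m (ψ τ) (fun n => ψ (H₁ n)) (fun n => ψ (H₂ n)) (fgg h ψ)
    (h.apd ψ hψ) q a r hq s₁ s₂ s₃ s₄ h1 h2 h3 h4 h5 h6 ε' hε'

open scoped Classical in
/-- sums over all factorisations -/
theorem outAll3 [Finite A] (hF : Fd (t : ℤ) (c : ℤ) f χ) (h : Gg t c χ m τ D H₁ H₂) (g : A)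
    (q a r : ℕ) (hq : 1 ≤ q) (hal : Adp t c q a r D H₁ H₂ g) (s₁ s₂ s₃ s₄ : ℝ) (h1 : 0 ≤ s₁)
    (h2 : s₁ < s₂) (h3 : s₂ ≤ 1) (h4 : 0 ≤ s₃) (h5 : s₃ < s₄) (h6 : s₄ ≤ 1) (ε : ℝ) (hε : 0 < ε) :
    Tendsto (fun N : ℕ => (∑ X ∈ (Icc 1 N).filter (fun X : ℕ => ε * X <
      |∑ n ∈ (range (X + 1)).filter (fun n => 1 ≤ n + t ∧ n ≡ a [MOD q]),
        ∑ d ∈ wd t c q r s₁ s₂ s₃ s₄ X n,
        ((if H₁ d + H₂ ((n ^ 2 + t * n + c) / d) = g then (1 : ℝ) else 0) -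
          1 / (Nat.card (D) : ℝ))|), 1 / (X : ℝ)) /
      Real.log N) atTop (nhds 0) := by
  have h7 := tt (fun X => ∑ p ∈ SW (t : ℤ) (c : ℤ) q a r s₁ s₂ s₃ s₄ X,
        ((if H₁ p.1 + H₂ p.2 = g then (1 : ℂ) else 0) - 1 / (Nat.card (D) : ℂ)))
    (fun ε' hε' => avg_tw3 hF h g q a r hq hal s₁ s₂ s₃ s₄ h1 h2 h3 h4 h5 h6 ε' hε') ε hε
  refine h7.congr fun N => ?_
  congr 1
  refine sum_congr ?_ fun _ _ => rfl
  ext X
  rw [mem_filter, mem_filter]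
  refine and_congr_right fun _ => ?_
  have h8 := conv_p (H₁ := H₁) (H₂ := H₂) (t_le hF) (c_pos hF) (fun _ => True) g (D)
    q a r s₁ s₂ s₃ s₄ h3 h6 X
  simp only [filter_true, and_true] at h8
  rw [h8, Complex.norm_real, Real.norm_eq_abs]

open scoped Classical in
/-- sums over the factorisations of the squarefree values -/
theorem outSq3 [Finite A] (hF : Fd (t : ℤ) (c : ℤ) f χ) (h : Gg t c χ m τ D H₁ H₂) (g : A)
    (q a r : ℕ) (hq : 1 ≤ q) (hal : Adp t c q a r D H₁ H₂ g) (s₁ s₂ s₃ s₄ : ℝ) (h1 : 0 ≤ s₁)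
    (h2 : s₁ < s₂) (h3 : s₂ ≤ 1) (h4 : 0 ≤ s₃) (h5 : s₃ < s₄) (h6 : s₄ ≤ 1) (ε : ℝ) (hε : 0 < ε) :
    Tendsto (fun N : ℕ => (∑ X ∈ (Icc 1 N).filter (fun X : ℕ => ε * X <
      |∑ n ∈ (range (X + 1)).filter (fun n => 1 ≤ n + t ∧ n ≡ a [MOD q] ∧
        Squarefree (n ^ 2 + t * n + c)),
        ∑ d ∈ wd t c q r s₁ s₂ s₃ s₄ X n,
        ((if H₁ d + H₂ ((n ^ 2 + t * n + c) / d) = g then (1 : ℝ) else 0) -
          1 / (Nat.card (D) : ℝ))|), 1 / (X : ℝ)) /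
      Real.log N) atTop (nhds 0) := by
  have h7 := tt (fun X => ∑ p ∈ (SW (t : ℤ) (c : ℤ) q a r s₁ s₂ s₃ s₄ X).filter
        (fun p => Squarefree (p.1 * p.2)),
        ((if H₁ p.1 + H₂ p.2 = g then (1 : ℂ) else 0) - 1 / (Nat.card (D) : ℂ)))
    (fun ε' hε' => avg_ts3 hF h g q a r hq hal s₁ s₂ s₃ s₄ h1 h2 h3 h4 h5 h6 ε' hε') ε hε
  refine h7.congr fun N => ?_
  congr 1
  refine sum_congr ?_ fun _ _ => rfl
  ext X
  rw [mem_filter, mem_filter]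
  refine and_congr_right fun _ => ?_
  have h8 := conv_p (H₁ := H₁) (H₂ := H₂) (t_le hF) (c_pos hF) Squarefree g (D)
    q a r s₁ s₂ s₃ s₄ h3 h6 X
  have h9 : ∑ p ∈ (SW (t : ℤ) (c : ℤ) q a r s₁ s₂ s₃ s₄ X).filter
        (fun p => Squarefree (p.1 * p.2)),
        ((if H₁ p.1 + H₂ p.2 = g then (1 : ℂ) else 0) - 1 / (Nat.card (D) : ℂ)) =
      ((∑ n ∈ (range (X + 1)).filter (fun n => 1 ≤ n + t ∧ n ≡ a [MOD q] ∧
        Squarefree (n ^ 2 + t * n + c)),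
        ∑ d ∈ wd t c q r s₁ s₂ s₃ s₄ X n,
        ((if H₁ d + H₂ ((n ^ 2 + t * n + c) / d) = g then (1 : ℝ) else 0) -
          1 / (Nat.card (D) : ℝ)) : ℝ) : ℂ) := by
    convert h8
  rw [h9, Complex.norm_real, Real.norm_eq_abs]

open scoped Classical in
/-- all admissible values in a residue class, at almost all scales -/
theorem outCw3 [Finite A] (hF : Fd (t : ℤ) (c : ℤ) f χ) (hS : S_SPSc (t : ℤ) (c : ℤ))
    (h : Gg t c χ m τ D H₁ H₂) (g : A) (q a : ℕ) (hq : 1 ≤ q) (hal : Adq t c q a D H₁ H₂ g)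
    (hqa : ∀ l : ℕ, l.Prime → l ^ 2 ∣ q → ¬ l ^ 2 ∣ a ^ 2 + t * a + c) (ε : ℝ) (hε : 0 < ε) :
    Tendsto (fun Z : ℕ => (∑ X ∈ (Icc 1 Z).filter (fun X : ℕ =>
      (cw t c q a H₁ H₂ g X : ℝ) < (X : ℝ) / Real.log X ^ (Real.log 2 + ε)), 1 / (X : ℝ)) /
      Real.log Z) atTop (nhds 0) := by
  have ht := t_le hF
  have hc := c_pos hF
  obtain ⟨k, hk⟩ : ∃ k : ℕ, k = Nat.card D := ⟨_, rfl⟩
  have hk0 : (0 : ℝ) < k := by
    rw [hk]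
    exact_mod_cast Nat.card_pos
  obtain ⟨c₁, hc₁, X₀, hlow⟩ := hS q a hq
    (fun l hl hlq hd => hqa l hl hlq (by exact_mod_cast hd))
  obtain ⟨N₁, hpn⟩ := Pool.Agent.TH890.DV.pnL hF (c₁ / (2 * k)) ε (by positivity) hε
  obtain ⟨G, hG⟩ : ∃ G : ℕ × ℕ → ℂ, G = fun p => ((if H₁ p.1 + H₂ p.2 = g then (1 : ℂ) else 0) -
    1 / (Nat.card D : ℂ)) := ⟨_, rfl⟩
  have hnull : Tendsto (fun Z : ℕ => (∑ X ∈ (Icc 1 Z).filter (fun X : ℕ => c₁ / (2 * k) * X <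
      ∑ r ∈ range q, ‖∑ p ∈ (SW (t : ℤ) (c : ℤ) q a r 0 1 0 1 X).filter
      (fun p => Squarefree (p.1 * p.2)), G p‖), 1 / (X : ℝ)) / Real.log Z)
      atTop (nhds 0) := by
    have hav : ∀ (r : ℕ) (δ : ℝ), 0 < δ → ∃ N₀ : ℕ, ∀ N' : ℕ, N₀ ≤ N' →
        ∑ X ∈ Icc 1 N', 1 / (X : ℝ) ^ 2 *
        ‖∑ p ∈ (SW (t : ℤ) (c : ℤ) q a r 0 1 0 1 X).filter (fun p => Squarefree (p.1 * p.2)),
          G p‖ ≤ δ * Real.log N' := by
      intro r δ hδ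
      have hal' : Adp t c q a r D H₁ H₂ g := fun n d e hn _ hde => hal n d e hn hde
      have h9 := avg_ts3 hF h g q a r hq hal' 0 1 0 1 le_rfl one_pos le_rfl le_rfl one_pos le_rfl
        δ hδ
      rw [hG]
      exact h9
    have hav2 := fun r : ℕ => tt _ (hav r)
    exact sum_null hq (fun r _ => hav2 r) (c₁ / (2 * k)) (by positivity)
  refine null_of (max X₀ N₁) (fun X hX hlt => ?_) hnull
  by_contra hcon
  push Not at hcon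
  have h1 := hlow X ((le_max_left _ _).trans hX)
  obtain ⟨B, hB⟩ : ∃ B : Finset (ℕ × ℕ), B = (SP (t : ℤ) (c : ℤ) X).filter
    (fun p => Squarefree (p.1 * p.2) ∧ ∃ n : ℕ, 0 < 2 * (n : ℤ) + (t : ℤ) ∧
      (p.1 * p.2 : ℤ) = (n : ℤ) ^ 2 + (t : ℤ) * n + (c : ℤ) ∧ n ≡ a [MOD q]) := ⟨_, rfl⟩
  rw [← hB] at h1
  have hBm : ∀ p ∈ B, p ∈ SP (t : ℤ) (c : ℤ) X ∧ Squarefree (p.1 * p.2) ∧ 1 ≤ p.1 ∧ p.1 ≤ X ∧
      1 ≤ p.2 ∧ p.2 ≤ X ∧ ∃ n : ℕ, 1 ≤ n + t ∧ p.1 * p.2 = n ^ 2 + t * n + c ∧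
      n ≡ a [MOD q] := by
    intro p hp
    rw [hB] at hp
    obtain ⟨h2, h3, n, h4, h5, h6⟩ := mem_filter.1 hp
    obtain ⟨h7, h8⟩ := (fcond n p.1 p.2).1 ⟨h4, h5⟩
    have h9 := h2
    unfold SP at h9
    simp only [mem_filter, mem_product, mem_Icc] at h9
    exact ⟨h2, h3, h9.1.1.1, h9.1.1.2, h9.1.2.1, h9.1.2.2, n, h7, h8, h6⟩
  -- the sum over `B`
  have hsum : ‖∑ p ∈ B, G p‖ ≤ c₁ / (2 * k) * X := by
    refine le_trans ?_ hcon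
    have h2 : ∑ p ∈ B, G p = ∑ r ∈ range q,
        ∑ p ∈ (SW (t : ℤ) (c : ℤ) q a r 0 1 0 1 X).filter (fun p => Squarefree (p.1 * p.2)),
        G p := by
      rw [← sum_fiberwise_of_maps_to (s := B) (t := range q) (g := fun p : ℕ × ℕ => p.1 % q)
        (fun p _ => mem_range.2 (Nat.mod_lt _ (by omega)))]
      refine sum_congr rfl fun r hr => ?_
      refine sum_congr ?_ fun _ _ => rfl
      have hr' : r % q = r := Nat.mod_eq_of_lt (mem_range.1 hr)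
      ext p
      rw [mem_filter, mem_filter, mem_SWn]
      constructor
      · rintro ⟨h3, h4⟩
        obtain ⟨h5, h6, h7, h8, h9, h10, n, h11, h12, h13⟩ := hBm p h3
        refine ⟨⟨⟨⟨h7, h8⟩, h9, h10⟩, ⟨n, h11, h12, h13, ?_⟩, ?_, ?_, ?_, ?_⟩, h6⟩
        · show p.1 % q = r % q
          rw [h4, hr']
        · rw [zero_mul]; exact_mod_cast h7
        · rw [one_mul]; exact_mod_cast h8
        · rw [zero_mul]; exact_mod_cast h9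
        · rw [one_mul]; exact_mod_cast h10
      · rintro ⟨⟨⟨h3, h4⟩, ⟨n, h5, h6, h7, h8⟩, _⟩, h9⟩
        have h10 := (fcond n p.1 p.2).2 ⟨h5, h6⟩
        refine ⟨?_, ?_⟩
        · rw [hB]
          refine mem_filter.2 ⟨?_, h9, n, h10.1, h10.2, h7⟩
          unfold SP
          rw [mem_filter, mem_product, mem_Icc, mem_Icc]
          exact ⟨⟨h3, h4⟩, n, h10.1, h10.2⟩
        · have h11 : p.1 % q = r % q := h8
          rw [h11, hr']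
    rw [h2]
    exact norm_sum_le _ _
  -- the pairs with the value `g`
  obtain ⟨S, hSd⟩ : ∃ S : Finset (ℕ × ℕ), S = B.filter
    (fun p => H₁ p.1 + H₂ p.2 = g) := ⟨_, rfl⟩
  have hS1 : c₁ / (2 * k) * X ≤ (S.card : ℝ) := by
    have h2 : ∑ p ∈ B, G p = (((S.card : ℝ) - 1 / k * B.card : ℝ) : ℂ) := by
      rw [hG, sum_sub_distrib, sum_boole, hSd, sum_const, nsmul_eq_mul, ← hk]
      push_cast
      ring
    rw [h2, Complex.norm_real, Real.norm_eq_abs] at hsum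
    have h5 := (abs_le.1 hsum).1
    have h6 : 1 / (k : ℝ) * (c₁ * X) ≤ 1 / k * B.card :=
      mul_le_mul_of_nonneg_left h1 (by positivity)
    have h7 : 1 / (k : ℝ) * (c₁ * X) = c₁ / (2 * k) * X + c₁ / (2 * k) * X := by
      field_simp
      ring
    linarith
  have hSm : ∀ p ∈ S, p ∈ B ∧ H₁ p.1 + H₂ p.2 = g := by
    intro p hp
    rw [hSd] at hp
    exact mem_filter.1 hp
  have h3 := hpn X ((le_max_right _ _).trans hX) S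
    (fun p hp => ⟨(hBm p (hSm p hp).1).1, (hBm p (hSm p hp).1).2.1⟩) hS1
  have h4 : (S.image (fun p : ℕ × ℕ => Nat.sqrt (p.1 * p.2 - c))).card ≤
      cw t c q a H₁ H₂ g X := by
    unfold Pool.Agent.V11296.CW.cw
    refine card_le_card fun n hn => ?_
    obtain ⟨p, hp, rfl⟩ := mem_image.1 hn
    obtain ⟨hpB, hpe⟩ := hSm p hp
    obtain ⟨_, hsf, _, h8, _, h10, n, h11, h12, h13⟩ := hBm p hpB
    have h14 : Nat.sqrt (p.1 * p.2 - c) = n := by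
      rw [h12]
      exact fsqrt ht n
    rw [h14, mem_filter, mem_range]
    refine ⟨?_, h11, h13, h12 ▸ hsf, p.1, p.2, h8, h10, h12, hpe⟩
    by_contra hcon2
    push Not at hcon2
    have h15 : p.1 * p.2 ≤ X * X := Nat.mul_le_mul h8 h10
    nlinarith [Nat.zero_le (t * n)]
  have h5 : ((S.image (fun p : ℕ × ℕ => Nat.sqrt (p.1 * p.2 - c))).card : ℝ) ≤
      cw t c q a H₁ H₂ g X := by
    exact_mod_cast h4
  linarith

/-- all large scales -/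
theorem outCwAll3 [Finite A] (hF : Fd (t : ℤ) (c : ℤ) f χ) (hS : S_SPSc (t : ℤ) (c : ℤ))
    (h : Gg t c χ m τ D H₁ H₂) (g : A) (q a : ℕ) (hq : 1 ≤ q) (hal : Adq t c q a D H₁ H₂ g)
    (hqa : ∀ l : ℕ, l.Prime → l ^ 2 ∣ q → ¬ l ^ 2 ∣ a ^ 2 + t * a + c) (δ : ℝ) (hδ : 0 < δ) :
    ∃ N₀ : ℕ, ∀ N : ℕ, N₀ ≤ N → (N : ℝ) ^ (1 - δ) ≤ cw t c q a H₁ H₂ g N := by
  refine all_of (cw_mono t c q a H₁ H₂ g) (fun ε hε => ?_) δ hδ
  have hl2 := Real.log_pos (show (1 : ℝ) < 2 by norm_num)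
  have h1 := outCw3 hF hS h g q a hq hal hqa (Real.log 2 + ε) (by linarith)
  have h2 : Real.log 2 + (Real.log 2 + ε) = 2 * Real.log 2 + ε := by ring
  rwa [h2] at h1

end

end Pool.Agent.N912.PM
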