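import Pool.Agent.N912.PM.Dcv
import Pool.Agent.N912.PM.Avx1
import Pool.Agent.Helper602.PNT

/-!
Project PM (helper912), part 4: sums over the primes `≡ 1 mod m` and mesh sums (port of W349.EG.Pw, the
prime number theorem in arithmetic progressions from Helper602.PNT).
-/

set_option autoImplicit false

namespace Pool.Agent.N912.PM

open Finset Filter
open Pool.Agent.W251.EX (Sv Tm)
open Pool.Agent.W78.EG (PQ)

/-- sums over primes with weights and mesh sums -/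
theorem pwW {S : ℕ → Finset ℕ} (hSm : ∀ Q : ℕ, ∀ p ∈ S Q, Q < p ∧ p ≤ 2 * Q) {ω : ℕ → ℝ}
    (hω : ∀ Q : ℕ, ∀ p ∈ S Q, 0 ≤ ω p)
    (hT : ∀ η : ℝ, 0 < η → ∃ Q₀ : ℕ, 1 ≤ Q₀ ∧ ∀ Q : ℕ, Q₀ ≤ Q → ∀ u : ℝ,
      (Q : ℝ) ≤ u → u ≤ 2 * Q →
      |∑ p ∈ (S Q).filter (fun p : ℕ => (p : ℝ) ≤ u), ω p - (u - Q) / 2| ≤ η * Q)
    {a : ℝ → ℂ} {C : ℝ} (hsv : Sv a C) (m : ℕ) (hm : 1 ≤ m) :
    ∃ Q₀ : ℕ, ∀ Q : ℕ, Q₀ ≤ Q → ∃ x₀ : ℝ, ∀ x : ℝ, x₀ ≤ x →
    ‖∑ p ∈ S Q, (ω p : ℂ) * a (x / p) - ((Q : ℂ) / 2) * Tm m a (x / Q)‖ ≤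
      5 * C / m * Q := by
  have hm0 : (0 : ℝ) < m := by exact_mod_cast hm
  have hm1 : (1 : ℝ) ≤ m := by exact_mod_cast hm
  have hC0 : 0 ≤ C := (norm_nonneg _).trans (hsv.bd 0)
  obtain ⟨Q₀, hQ₀1, hQ₀⟩ := hT (1 / (2 * (m : ℝ) ^ 2)) (by positivity)
  refine ⟨Q₀, fun Q hQ => ?_⟩
  have hQ1 : 1 ≤ Q := hQ₀1.trans hQ
  have hQ0 : (0 : ℝ) < Q := by exact_mod_cast hQ1
  obtain ⟨x₁, hx₁⟩ := hsv.reg (1 / m) (by positivity) (by rw [div_le_one hm0]; exact hm1)
  refine ⟨2 * Q * |x₁|, fun x hx => ?_⟩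
  have hx0 : 0 ≤ x := le_trans (by positivity) hx
  set u : ℕ → ℝ := fun j => Q * (2 : ℝ) ^ ((j : ℝ) / m) with hu
  set G : ℕ → ℝ := fun j => ∑ p ∈ (S Q).filter (fun p : ℕ => (p : ℝ) ≤ u j), ω p with hG
  have u0 : u 0 = Q := by simp [hu]
  have um : u m = 2 * Q := by
    simp only [hu]
    rw [div_self hm0.ne', Real.rpow_one]
    ring
  have umono : ∀ i j : ℕ, i ≤ j → u i ≤ u j := by
    intro i j hij
    simp only [hu]
    have : (i : ℝ) / m ≤ (j : ℝ) / m := by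
      have : (i : ℝ) ≤ j := by exact_mod_cast hij
      gcongr
    exact mul_le_mul_of_nonneg_left (Real.rpow_le_rpow_of_exponent_le (by norm_num) this) hQ0.le
  have uQ : ∀ j : ℕ, (Q : ℝ) ≤ u j := fun j => by
    rw [← u0]; exact umono 0 j (Nat.zero_le _)
  have upos : ∀ j : ℕ, 0 < u j := fun j => lt_of_lt_of_le hQ0 (uQ j)
  have u2Q : ∀ j : ℕ, j ≤ m → u j ≤ 2 * Q := fun j hj => by
    rw [← um]; exact umono j m hj
  have hr : (2 : ℝ) ^ ((1 : ℝ) / m) ≤ 1 + 1 / m := by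
    have h1 := rpow_one_add_le_one_add_mul_self (s := 1) (by norm_num) (p := 1 / (m : ℝ))
      (by positivity) (by rw [div_le_one hm0]; exact hm1)
    norm_num at h1 ⊢
    linarith
  have usucc : ∀ j : ℕ, u (j + 1) ≤ (1 + 1 / m) * u j := by
    intro j
    simp only [hu]
    have : (((j + 1 : ℕ) : ℝ)) / m = (j : ℝ) / m + 1 / m := by push_cast; ring
    rw [this, Real.rpow_add (by norm_num)]
    have hp : 0 < (2 : ℝ) ^ ((j : ℝ) / m) := by positivity
    calc (Q : ℝ) * ((2 : ℝ) ^ ((j : ℝ) / m) * (2 : ℝ) ^ ((1 : ℝ) / m))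
        ≤ Q * ((2 : ℝ) ^ ((j : ℝ) / m) * (1 + 1 / m)) := by gcongr
      _ = (1 + 1 / m) * (Q * (2 : ℝ) ^ ((j : ℝ) / m)) := by ring
  -- the pieces
  set P : ℕ → Finset ℕ := fun j =>
    (S Q).filter (fun p : ℕ => u j < (p : ℝ) ∧ (p : ℝ) ≤ u (j + 1)) with hP
  have split : ∀ (A : Type) [AddCommGroup A] (g : ℕ → A) (n : ℕ),
      ∑ p ∈ (S Q).filter (fun p : ℕ => (p : ℝ) ≤ u n), g p = ∑ j ∈ range n, ∑ p ∈ P j, g p := by
    intro A _ g n
    induction n with
    | zero =>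
      rw [range_zero, sum_empty]
      apply sum_eq_zero
      intro p hp
      exfalso
      rw [mem_filter] at hp
      have h3 := hSm Q p hp.1
      have h4 : (Q : ℝ) < p := by exact_mod_cast h3.1
      rw [u0] at hp
      linarith [hp.2]
    | succ n ih =>
      rw [sum_range_succ, ← ih]
      have h3 : (S Q).filter (fun p : ℕ => (p : ℝ) ≤ u (n + 1)) =
          (S Q).filter (fun p : ℕ => (p : ℝ) ≤ u n) ∪ P n := by
        ext p
        simp only [hP, mem_union, mem_filter]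
        constructor
        · rintro ⟨h4, h5⟩
          by_cases h6 : (p : ℝ) ≤ u n
          · exact Or.inl ⟨h4, h6⟩
          · exact Or.inr ⟨h4, not_le.1 h6, h5⟩
        · rintro (⟨h4, h5⟩ | ⟨h4, _, h5⟩)
          · exact ⟨h4, h5.trans (umono n (n + 1) (Nat.le_succ _))⟩
          · exact ⟨h4, h5⟩
      rw [h3, sum_union]
      rw [disjoint_left]
      intro p h4 h5
      simp only [hP, mem_filter] at h4 h5
      linarith [h4.2, h5.2.1]
  have all : ∀ (A : Type) [AddCommGroup A] (g : ℕ → A),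
      ∑ p ∈ S Q, g p = ∑ j ∈ range m, ∑ p ∈ P j, g p := by
    intro A _ g
    rw [← split A g m]
    refine sum_congr ?_ fun _ _ => rfl
    ext p
    rw [mem_filter]
    constructor
    · intro h3
      refine ⟨h3, ?_⟩
      rw [um]
      exact_mod_cast (hSm Q p h3).2
    · exact fun h3 => h3.1
  have Gj : ∀ j : ℕ, ∑ p ∈ P j, ω p = G (j + 1) - G j := by
    intro j
    simp only [hG]
    rw [split ℝ _ (j + 1), split ℝ _ j, sum_range_succ]
    ring
  have Gbd : ∀ j : ℕ, j < m → |∑ p ∈ P j, ω p - (u (j + 1) - u j) / 2| ≤ Q / (m : ℝ) ^ 2 := by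
    intro j hj
    rw [Gj]
    have h3 := hQ₀ Q hQ (u (j + 1)) (uQ _) (u2Q _ hj)
    have h4 := hQ₀ Q hQ (u j) (uQ _) (u2Q _ hj.le)
    have h5 : G (j + 1) - G j - (u (j + 1) - u j) / 2 =
        (G (j + 1) - (u (j + 1) - Q) / 2) - (G j - (u j - Q) / 2) := by ring
    rw [h5]
    refine (abs_sub _ _).trans ?_
    have h6 : (Q : ℝ) / (m : ℝ) ^ 2 = 1 / (2 * (m : ℝ) ^ 2) * Q + 1 / (2 * (m : ℝ) ^ 2) * Q := by
      field_simp
      norm_num
    rw [h6]
    exact add_le_add h3 h4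
  -- the total mass
  have tot : ∑ p ∈ S Q, ω p ≤ Q := by
    have h3 := hQ₀ Q hQ (u m) (uQ _) (u2Q _ le_rfl)
    have h4 : ∑ p ∈ (S Q).filter (fun p : ℕ => (p : ℝ) ≤ u m), ω p =
        ∑ p ∈ S Q, ω p := by
      rw [split ℝ _ m, all ℝ]
    rw [h4, um] at h3
    have h5 := (abs_le.1 h3).2
    have h6 : 1 / (2 * (m : ℝ) ^ 2) * Q ≤ 1 / 2 * Q := by
      gcongr
      nlinarith
    linarith
  -- comparison
  have key : ∑ p ∈ S Q, (ω p : ℂ) * a (x / p) - ((Q : ℂ) / 2) * Tm m a (x / Q) =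
      ∑ j ∈ range m, (∑ p ∈ P j, (ω p : ℂ) * (a (x / p) - a (x / u j)) +
        ((∑ p ∈ P j, ω p - (u (j + 1) - u j) / 2 : ℝ) : ℂ) * a (x / u j)) := by
    rw [all ℂ, Tm, mul_sum, ← sum_sub_distrib]
    refine sum_congr rfl fun j _ => ?_
    have h3 : x / (Q : ℝ) / (2 : ℝ) ^ ((j : ℝ) / m) = x / u j := by
      simp only [hu]
      rw [div_div]
    rw [h3]
    have h4 : (Q : ℂ) / 2 * ((((2 : ℝ) ^ (((j : ℝ) + 1) / m) - (2 : ℝ) ^ ((j : ℝ) / m) : ℝ) : ℂ) *
        a (x / u j)) = (((u (j + 1) - u j) / 2 : ℝ) : ℂ) * a (x / u j) := by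
      simp only [hu]
      push_cast
      ring
    rw [h4]
    have h5 : ∑ p ∈ P j, (ω p : ℂ) * (a (x / p) - a (x / u j)) =
        ∑ p ∈ P j, (ω p : ℂ) * a (x / p) -
          ((∑ p ∈ P j, ω p : ℝ) : ℂ) * a (x / u j) := by
      rw [Complex.ofReal_sum, sum_mul, ← sum_sub_distrib]
      exact sum_congr rfl fun p _ => by ring
    rw [h5]
    push_cast
    ring
  rw [key]
  have step : ∀ j ∈ range m, ‖∑ p ∈ P j, (ω p : ℂ) * (a (x / p) - a (x / u j)) +
        ((∑ p ∈ P j, ω p - (u (j + 1) - u j) / 2 : ℝ) : ℂ) * a (x / u j)‖ ≤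
        C * (1 / m) * ∑ p ∈ P j, ω p + Q / (m : ℝ) ^ 2 * C := by
    intro j hj
    refine (norm_add_le _ _).trans (add_le_add ?_ ?_)
    · refine (norm_sum_le _ _).trans ?_
      rw [mul_sum]
      refine sum_le_sum fun p hp => ?_
      simp only [hP, mem_filter] at hp
      have h3 := hSm Q p hp.1
      have hpp : (0 : ℝ) < p := lt_of_lt_of_le (upos j) hp.2.1.le
      have hp2 : (p : ℝ) ≤ 2 * Q := by exact_mod_cast h3.2
      have hlog : 0 ≤ ω p := hω Q p hp.1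
      have h4 : x₁ ≤ x / p := by
        rw [le_div_iff₀ hpp]
        calc x₁ * p ≤ |x₁| * p := by gcongr; exact le_abs_self _
          _ ≤ |x₁| * (2 * Q) := by gcongr
          _ ≤ x := by linarith
      have h5 : x / p ≤ x / u j := div_le_div_of_nonneg_left hx0 (upos j) hp.2.1.le
      have h6 : x / u j ≤ (1 + 1 / m) * (x / p) := by
        rw [div_le_iff₀ (upos j)]
        have h7 : (p : ℝ) ≤ (1 + 1 / m) * u j := hp.2.2.trans (usucc j)
        calc x = x / p * p := by field_simp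
          _ ≤ x / p * ((1 + 1 / m) * u j) := by gcongr
          _ = (1 + 1 / m) * (x / p) * u j := by ring
      have h7 := hx₁ (x / p) (x / u j) h4 h5 h6
      rw [norm_mul, Complex.norm_real, Real.norm_of_nonneg hlog, norm_sub_rev]
      calc ω p * ‖a (x / u j) - a (x / p)‖ ≤ ω p * (C * (1 / m)) := by gcongr
        _ = C * (1 / m) * ω p := by ring
    · rw [norm_mul, Complex.norm_real]
      exact mul_le_mul (Gbd j (mem_range.1 hj)) (hsv.bd _) (norm_nonneg _) (by positivity)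
  refine (norm_sum_le _ _).trans ((sum_le_sum step).trans ?_)
  rw [sum_add_distrib, ← mul_sum, ← all ℝ, sum_const, card_range, nsmul_eq_mul]
  have h3 : C * (1 / m) * ∑ p ∈ S Q, ω p ≤ C * (1 / m) * Q := by gcongr
  have h4 : (m : ℝ) * (Q / (m : ℝ) ^ 2 * C) = C * (1 / m) * Q := by
    field_simp
  rw [h4]
  have h5 : 0 ≤ C * (1 / m) * Q := by positivity
  have h6 : 5 * C / m * Q = 5 * (C * (1 / m) * Q) := by ring
  rw [h6]
  linarith

/-- the sum of `log p` over the primes `p ≤ x`, `p ≡ 1 mod m` -/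
noncomputable def thm (m : ℕ) (x : ℝ) : ℝ :=
  ∑ p ∈ (Icc 1 ⌊x⌋₊).filter (fun p : ℕ => p.Prime ∧ p ≡ 1 [MOD m]), Real.log p

theorem thm_tendsto {m : ℕ} (hm : 1 ≤ m) :
    Tendsto (fun x : ℝ => thm m x / x) atTop (nhds ((m.totient : ℝ)⁻¹)) := by
  haveI : NeZero m := ⟨by omega⟩
  have h0 := Pool.Agent.Helper602.PNT.pnt_residueClass (q := m) (a := 1) isUnit_one
  obtain ⟨C, hC⟩ := Chebyshev.psi_sub_theta_le_mul_sqrt
  -- the difference
  have hdiff : ∀ x : ℝ, 0 ≤ x →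
      0 ≤ ∑ k ∈ Icc 1 ⌊x⌋₊, ArithmeticFunction.vonMangoldt.residueClass (1 : ZMod m) k - thm m x ∧
      ∑ k ∈ Icc 1 ⌊x⌋₊, ArithmeticFunction.vonMangoldt.residueClass (1 : ZMod m) k - thm m x ≤
        Chebyshev.psi x - Chebyshev.theta x := by
    intro x hx
    have e1 : thm m x = ∑ k ∈ Icc 1 ⌊x⌋₊,
        (if k.Prime ∧ k ≡ 1 [MOD m] then Real.log k else 0) := by
      unfold thm
      rw [sum_filter]
    have e2 : Chebyshev.psi x - Chebyshev.theta x = ∑ k ∈ Icc 1 ⌊x⌋₊,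
        (ArithmeticFunction.vonMangoldt k - (if k.Prime then Real.log k else 0)) := by
      unfold Chebyshev.psi Chebyshev.theta
      rw [sum_sub_distrib, sum_filter]
      have e : Ioc 0 ⌊x⌋₊ = Icc 1 ⌊x⌋₊ := by
        ext n
        simp only [mem_Ioc, mem_Icc]
        omega
      rw [e]
    rw [e1, e2, ← sum_sub_distrib]
    have key : ∀ k : ℕ, 0 ≤ ArithmeticFunction.vonMangoldt.residueClass (1 : ZMod m) k -
        (if k.Prime ∧ k ≡ 1 [MOD m] then Real.log k else 0) ∧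
        ArithmeticFunction.vonMangoldt.residueClass (1 : ZMod m) k -
        (if k.Prime ∧ k ≡ 1 [MOD m] then Real.log k else 0) ≤
        ArithmeticFunction.vonMangoldt k - (if k.Prime then Real.log k else 0) := by
      intro k
      have hk : (k : ZMod m) = 1 ↔ k ≡ 1 [MOD m] := by
        rw [← Nat.cast_one, ZMod.natCast_eq_natCast_iff]
      have hL := ArithmeticFunction.vonMangoldt_nonneg (n := k)
      have hP : k.Prime → ArithmeticFunction.vonMangoldt k = Real.log k := fun h =>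
        ArithmeticFunction.vonMangoldt_apply_prime h
      have hr : ArithmeticFunction.vonMangoldt.residueClass (1 : ZMod m) k =
          if k ≡ 1 [MOD m] then ArithmeticFunction.vonMangoldt k else 0 := by
        unfold ArithmeticFunction.vonMangoldt.residueClass
        rw [Set.indicator_apply]
        by_cases h : k ≡ 1 [MOD m]
        · rw [if_pos h, if_pos (by simpa using hk.2 h)]
        · rw [if_neg h, if_neg (by simpa using fun h' => h (hk.1 h'))]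
      rw [hr]
      by_cases h1 : k ≡ 1 [MOD m] <;> by_cases h2 : k.Prime
      · simp only [h1, h2, and_self, if_true, hP h2]
        simp
      · simp only [h1, h2, false_and, if_true, if_false]
        simpa using hL
      · simp only [h1, h2, and_false, if_true, if_false, hP h2]
        simp
      · simp only [h1, h2, and_false, if_false]
        simpa using hL
    exact ⟨sum_nonneg fun k _ => (key k).1, sum_le_sum fun k _ => (key k).2⟩
  have h2 : Tendsto (fun x : ℝ => C * (Real.sqrt x)⁻¹) atTop (nhds 0) := by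
    have := (tendsto_inv_atTop_zero.comp Real.tendsto_sqrt_atTop).const_mul C
    simpa [Function.comp_def] using this
  have h1 : Tendsto (fun x : ℝ => (∑ k ∈ Icc 1 ⌊x⌋₊,
      ArithmeticFunction.vonMangoldt.residueClass (1 : ZMod m) k - thm m x) / x) atTop (nhds 0) := by
    refine squeeze_zero' ?_ ?_ h2
    · filter_upwards [eventually_gt_atTop 0] with x hx
      exact div_nonneg (hdiff x hx.le).1 hx.le
    · filter_upwards [eventually_gt_atTop 0] with x hx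
      rw [div_le_iff₀ hx]
      refine ((hdiff x hx.le).2.trans (hC x)).trans (le_of_eq ?_)
      have hs : 0 < Real.sqrt x := Real.sqrt_pos.mpr hx
      have hx2 : Real.sqrt x * Real.sqrt x = x := Real.mul_self_sqrt hx.le
      field_simp
      rw [sq, hx2]
  have h3 := h0.sub h1
  simp only [sub_zero] at h3
  refine h3.congr fun x => ?_
  rw [← sub_div]
  congr 1
  ring

variable {f : ℕ} {χ : DirichletCharacter ℂ f}

theorem chi_one {m : ℕ} (hfm : f ∣ m) {p : ℕ} (hp : p ≡ 1 [MOD m]) : χ (p : ZMod f) = 1 := by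
  have h1 : (p : ZMod f) = ((1 : ℕ) : ZMod f) := (ZMod.natCast_eq_natCast_iff _ _ _).2 (hp.of_dvd hfm)
  rw [h1, Nat.cast_one, map_one]

theorem PM_filter {m : ℕ} (hfm : f ∣ m) (Q : ℕ) (u : ℝ) (h1 : (Q : ℝ) ≤ u) (h2 : u ≤ 2 * Q) :
    ∑ p ∈ (PM χ m Q).filter (fun p : ℕ => (p : ℝ) ≤ u), Real.log p = thm m u - thm m Q := by
  have hu : 0 ≤ u := le_trans (Nat.cast_nonneg _) h1
  have hQu : Q ≤ ⌊u⌋₊ := Nat.le_floor h1
  rw [eq_sub_iff_add_eq]
  unfold thm
  rw [Nat.floor_natCast, ← sum_union]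
  · refine sum_congr ?_ fun _ _ => rfl
    ext p
    unfold PM PQ
    simp only [mem_union, mem_filter, mem_Ioc, mem_Icc]
    constructor
    · rintro (⟨⟨⟨⟨h3, h4⟩, h5, h6⟩, h7⟩, h8⟩ | ⟨⟨h3, h4⟩, h5, h6⟩)
      · exact ⟨⟨h5.one_lt.le, Nat.le_floor h8⟩, h5, h7⟩
      · exact ⟨⟨h3, h4.trans hQu⟩, h5, h6⟩
    · rintro ⟨⟨h3, h4⟩, h5, h6⟩
      rcases Nat.lt_or_ge Q p with h7 | h7
      · left
        have h8 : (p : ℝ) ≤ u := (Nat.le_floor_iff hu).1 h4
        refine ⟨⟨⟨⟨h7, ?_⟩, h5, chi_one hfm h6⟩, h6⟩, h8⟩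
        exact_mod_cast h8.trans h2
      · right
        exact ⟨⟨h3, h7⟩, h5, h6⟩
  · rw [disjoint_left]
    intro p hp hp'
    unfold PM PQ at hp
    simp only [mem_filter, mem_Ioc, mem_Icc] at hp hp'
    omega

/-- the prime number theorem for the primes `≡ 1 mod m` in `(Q, u]` -/
theorem T_asymM {m : ℕ} (hm : 1 ≤ m) (hfm : f ∣ m) (η : ℝ) (hη : 0 < η) : ∃ Q₀ : ℕ, 1 ≤ Q₀ ∧
    ∀ Q : ℕ, Q₀ ≤ Q → ∀ u : ℝ, (Q : ℝ) ≤ u → u ≤ 2 * Q →
    |∑ p ∈ (PM χ m Q).filter (fun p : ℕ => (p : ℝ) ≤ u), (m.totient : ℝ) / 2 * Real.log p -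
      (u - Q) / 2| ≤ η * Q := by
  have hφ : (0 : ℝ) < m.totient := by exact_mod_cast Nat.totient_pos.2 (by omega)
  obtain ⟨η', hη'⟩ : ∃ η' : ℝ, η' = 2 * η / (3 * m.totient) := ⟨_, rfl⟩
  have hη'0 : 0 < η' := by rw [hη']; positivity
  have h1 := (Metric.tendsto_atTop.1 (thm_tendsto hm)) η' hη'0
  obtain ⟨x₀, hx₀⟩ := h1
  have h2 : ∀ x : ℝ, max x₀ 1 ≤ x → |thm m x - x / m.totient| ≤ η' * x := by
    intro x hx
    have hx1 : 1 ≤ x := (le_max_right _ _).trans hx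
    have hx0 : 0 < x := by linarith
    have h3 := hx₀ x ((le_max_left _ _).trans hx)
    rw [Real.dist_eq] at h3
    have h4 : thm m x - x / m.totient = (thm m x / x - (m.totient : ℝ)⁻¹) * x := by
      field_simp
    rw [h4, abs_mul, abs_of_pos hx0]
    exact mul_le_mul_of_nonneg_right h3.le hx0.le
  refine ⟨⌈max x₀ 1⌉₊ + 1, by omega, fun Q hQ u hu1 hu2 => ?_⟩
  have hQ1 : max x₀ 1 ≤ Q := (Nat.le_ceil _).trans (by exact_mod_cast (Nat.le_succ _).trans hQ)
  have hQ0 : (0 : ℝ) ≤ Q := Nat.cast_nonneg _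
  rw [← mul_sum, PM_filter hfm Q u hu1 hu2]
  have h3 := h2 Q hQ1
  have h4 := h2 u (hQ1.trans hu1)
  have h5 : (m.totient : ℝ) / 2 * (thm m u - thm m Q) - (u - Q) / 2 =
      (m.totient : ℝ) / 2 * ((thm m u - u / m.totient) - (thm m Q - Q / m.totient)) := by
    field_simp
    ring
  rw [h5, abs_mul, abs_of_pos (by positivity)]
  have h6 : |(thm m u - u / m.totient) - (thm m Q - Q / m.totient)| ≤ η' * (3 * Q) := by
    refine (abs_sub _ _).trans ?_
    have h7 : η' * u ≤ η' * (2 * Q) := mul_le_mul_of_nonneg_left hu2 hη'0.le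
    linarith
  calc (m.totient : ℝ) / 2 * |(thm m u - u / m.totient) - (thm m Q - Q / m.totient)| ≤
        (m.totient : ℝ) / 2 * (η' * (3 * Q)) := mul_le_mul_of_nonneg_left h6 (by positivity)
    _ = η * Q := by
        rw [hη']
        field_simp

end Pool.Agent.N912.PM
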