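import Pool.Agent.N912.PM.Avx2
import Pool.Agent.N912.PM.Pw
import Pool.Agent.W251.EG.All2

/-!
Project PM (helper912), part 5: the means are small at almost all scales (extension of
W349.EG.Mainy).
-/

set_option autoImplicit false

namespace Pool.Agent.N912.PM

open Finset Filter
open Pool.Agent.W78.GA (Qd nm)
open Pool.Agent.W251.EX (Sv Tm)
open Pool.Agent.W251.GX (Cm)
open Pool.Agent.W78.EG
open Pool.Agent.W460.EX (harm_le aa aa_of sv_aa)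

variable {t c : ℤ} {f : ℕ} {χ : DirichletCharacter ℂ f}

theorem Pm.mono {N m m' : ℕ} {τ : ℂ} {F₁ F₂ : Qd t c → ℂ} (h : Pm N m τ F₁ F₂) (hm : m ∣ m') :
    Pm N m' τ F₁ F₂ :=
  ⟨h.cm₁, h.cm₂, h.nrm, fun π hπ h1 => h.tw π hπ (h1.of_dvd hm)⟩

theorem g2_leM {N m : ℕ} {τ : ℂ} {F₁ F₂ : Qd t c → ℂ} (hP : Pm N m τ F₁ F₂)
    (R : Qd t c → Qd t c → Prop) (e : Qd t c × Qd t c) : ‖g2 F₁ F₂ R e‖ ≤ 1 := by
  have hn : ∀ z : ℂ, z ^ N = 1 → ‖z‖ = 1 := fun z hz =>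
    Complex.norm_eq_one_of_pow_eq_one hz (by have := hP.cm₁.pos; omega)
  unfold g2
  split_ifs
  · rw [norm_mul, hn _ (hP.cm₁.pow _), hn _ (hP.cm₂.pow _), one_mul]
  · rw [norm_zero]
    exact zero_le_one

/-- the means are small at almost all scales -/
def S_MAINYm (t c : ℤ) (χ : DirichletCharacter ℂ f) : Prop := ∀ (N m : ℕ) (τ : ℂ)
  (F₁ F₂ : Qd t c → ℂ), Pm N m τ F₁ F₂ → 1 ≤ m →
  (∀ (q : ℕ) (β : Qd t c), 1 ≤ q →
    Bt χ (cl q β (fun z => (F₂ z).re)) ∧ Bt χ (cl q β (fun z => (F₂ z).im))) →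
  ∀ q : ℕ, 1 ≤ q →
  ∀ R : Qd t c → Qd t c → Prop, Rel q R → ∀ (s₁ s₂ s₃ s₄ : ℝ), 0 < s₁ → s₁ < s₂ → s₂ ≤ 1 →
  0 < s₃ → s₃ < s₄ → s₄ ≤ 1 → ∀ ε : ℝ, 0 < ε → ∃ N₀ : ℕ, ∀ N' : ℕ, N₀ ≤ N' →
    ∑ X ∈ Icc 1 N', 1 / (X : ℝ) ^ 2 * ‖AG (g2 F₁ F₂ R) s₁ s₂ s₃ s₄ X‖ ≤ ε * Real.log N'

theorem mainyM (hF : Fd t c f χ) (h1 : S_AVXm t c χ) (h2 : S_REGX t c)
    (hc : S_PCNT χ) : S_MAINYm t c χ := by
  intro N m₀ τ F₁ F₂ hP₀ hm₀ hBt q₀ hq₀ R hR₀ s₁ s₂ s₃ s₄ hs1 hs12 hs2 hs3 hs34 hs4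
  have hf3 := hF.three
  obtain ⟨m, hmd⟩ : ∃ m : ℕ, m = m₀ * f := ⟨_, rfl⟩
  have hm1 : 1 ≤ m := by rw [hmd]; exact Nat.mul_pos hm₀ (by omega)
  have hfm : f ∣ m := by rw [hmd]; exact dvd_mul_left _ _
  have hP : Pm N m τ F₁ F₂ := hP₀.mono (by rw [hmd]; exact dvd_mul_right _ _)
  obtain ⟨q, hqd⟩ : ∃ q : ℕ, q = q₀ * m := ⟨_, rfl⟩
  have hq : 1 ≤ q := by rw [hqd]; exact Nat.mul_pos hq₀ hm1
  have hmq : m ∣ q := by rw [hqd]; exact dvd_mul_left _ _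
  have hR : Rel q R := Pool.Agent.W251.EG.rel_dvd (by rw [hqd]; exact dvd_mul_right _ _) R hR₀
  have hg : ∀ e, ‖g2 F₁ F₂ R e‖ ≤ 1 := g2_leM hP R
  obtain ⟨C, hC, hb, hr⟩ := h2 (g2 F₁ F₂ R) hg s₁ s₂ s₃ s₄ hs1 hs12 hs2 hs3 hs34 hs4
  obtain ⟨c', C', hc', Q₀, hQ₀⟩ := hc
  obtain ⟨A, hA⟩ : ∃ A : ℝ → ℂ, A = AG (g2 F₁ F₂ R) s₁ s₂ s₃ s₄ := ⟨_, rfl⟩
  rw [← hA] at hb hr
  have hSv := sv_aa hC hb hr
  obtain ⟨D, hD⟩ : ∃ D : ℝ, D = (m.totient : ℝ) / 2 := ⟨_, rfl⟩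
  have hD0 : 0 < D := by
    rw [hD]
    have : (0 : ℝ) < m.totient := by exact_mod_cast Nat.totient_pos.2 (by omega)
    positivity
  have hmem : ∀ Q, ∀ p ∈ PM χ m Q, Q < p ∧ p ≤ 2 * Q := fun Q p hp => by
    unfold PM PQ at hp
    rw [Finset.mem_filter, Finset.mem_filter, Finset.mem_Ioc] at hp
    exact hp.1.1
  have hlogp : ∀ Q, ∀ p ∈ PM χ m Q, 0 ≤ Real.log p := fun Q p _ => Real.log_natCast_nonneg p
  intro ε hε
  have hmain := dcvW hSv (W := fun Q x => ∑ p ∈ PM χ m Q, ((D * Real.log p : ℝ) : ℂ) *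
    aa A (x / p)) (fun k hk => pwW (hmem) (ω := fun p => D * Real.log p)
      (fun Q p hp => mul_nonneg hD0.le (hlogp Q p hp))
      (by rw [hD]; exact fun η hη => T_asymM hm1 hfm η hη) hSv k hk) ?_ ε hε
  · obtain ⟨N₀, hN₀⟩ := hmain
    refine ⟨N₀, fun N' hN' => ?_⟩
    refine le_trans (le_of_eq ?_) (hN₀ N' hN')
    refine Finset.sum_congr rfl fun X hX => ?_
    have hX1 : (0 : ℝ) < X := by
      have := (Finset.mem_Icc.1 hX).1
      exact_mod_cast this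
    rw [aa_of hX1, hA, norm_div, Complex.norm_real, Real.norm_of_nonneg hX1.le]
    field_simp
  · intro η₀ hη₀ Q₁
    obtain ⟨η, hηd⟩ : ∃ η : ℝ, η = η₀ / D := ⟨_, rfl⟩
    have hη : 0 < η := by rw [hηd]; positivity
    obtain ⟨T, hT⟩ : ∃ T : ℕ, 4 * (C * |C'|) / η ≤ T := exists_nat_ge _
    obtain ⟨Q₂, N₀, hN₀⟩ := h1 N m τ F₁ F₂ hP q hq hmq (fun β => hBt q β hq) R hR s₁ s₂ s₃ s₄
      hs1 hs12 hs2 hs3 hs34 hs4
      (η / 2) (by positivity) (max (max Q₁ Q₀) (max T 1))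
    refine ⟨Q₂, max N₀ 3, fun N' hN' => ?_⟩
    obtain ⟨Q, hQ1, hQ2, hQ3⟩ := hN₀ N' ((le_max_left _ _).trans hN')
    have hN3 : 3 ≤ N' := (le_max_right _ _).trans hN'
    have ha : Q₁ ≤ Q := (le_max_left _ _).trans ((le_max_left _ _).trans hQ1)
    have hb' : Q₀ ≤ Q := (le_max_right _ _).trans ((le_max_left _ _).trans hQ1)
    have hc'' : T ≤ Q := (le_max_left _ _).trans ((le_max_right _ _).trans hQ1)
    have hd : 1 ≤ Q := (le_max_right _ _).trans ((le_max_right _ _).trans hQ1)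
    have hQpos : (0 : ℝ) < Q := by exact_mod_cast hd
    refine ⟨Q, ha, hQ2, ?_⟩
    rw [← hA] at hQ3
    have hlog : 1 ≤ Real.log N' := by
      rw [← Real.log_exp 1]
      apply Real.log_le_log (Real.exp_pos 1)
      have h4 := Real.exp_one_lt_d9
      have h5 : (3 : ℝ) ≤ N' := by exact_mod_cast hN3
      linarith
    have hmem' : ∀ p ∈ PM χ m Q, Q < p := fun p hp => (hmem Q p hp).1
    have hsub : ∑ p ∈ PM χ m Q, Real.log p ≤ ∑ p ∈ PQ χ Q, Real.log p := by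
      unfold PM
      exact sum_le_sum_of_subset_of_nonneg (filter_subset _ _)
        (fun p _ _ => Real.log_natCast_nonneg p)
    -- the error term
    have hsum : ∀ X : ℕ, 1 ≤ X → 1 / (X : ℝ) * ‖∑ p ∈ PM χ m Q, (Real.log p : ℂ) *
        aa A ((X : ℝ) / p)‖ ≤ 1 / (X : ℝ) ^ 2 *
          ‖∑ p ∈ PM χ m Q, ((Real.log p * ((p : ℝ) + 1) : ℝ) : ℂ) * A ((X : ℝ) / p)‖ +
            C * |C'| * (1 / (X : ℝ)) := by
      intro X hX
      have hX1 : (0 : ℝ) < X := by exact_mod_cast hX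
      have hXc : (X : ℂ) ≠ 0 := by
        have : X ≠ 0 := by omega
        exact_mod_cast this
      have e1 : ∑ p ∈ PM χ m Q, (Real.log p : ℂ) * aa A ((X : ℝ) / p) = (1 / (X : ℂ)) *
          (∑ p ∈ PM χ m Q, ((Real.log p * ((p : ℝ) + 1) : ℝ) : ℂ) * A ((X : ℝ) / p) -
            ∑ p ∈ PM χ m Q, (Real.log p : ℂ) * A ((X : ℝ) / p)) := by
        rw [← Finset.sum_sub_distrib, Finset.mul_sum]
        refine Finset.sum_congr rfl fun p hp => ?_
        have hp1 : 0 < p := by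
          have := hmem' p hp
          omega
        have hp2 : (0 : ℝ) < p := by exact_mod_cast hp1
        have hp3 : (p : ℂ) ≠ 0 := by
          have : p ≠ 0 := by omega
          exact_mod_cast this
        rw [aa_of (div_pos hX1 hp2)]
        push_cast
        field_simp
        ring
      have e2 : ‖∑ p ∈ PM χ m Q, (Real.log p : ℂ) * A ((X : ℝ) / p)‖ ≤ C * |C'| * X := by
        calc ‖∑ p ∈ PM χ m Q, (Real.log p : ℂ) * A ((X : ℝ) / p)‖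
            ≤ ∑ p ∈ PM χ m Q, ‖(Real.log p : ℂ) * A ((X : ℝ) / p)‖ := norm_sum_le _ _
          _ ≤ ∑ p ∈ PM χ m Q, Real.log p * (C * (X / Q)) := by
              refine Finset.sum_le_sum fun p hp => ?_
              have hp1 := hmem' p hp
              have hp2 : (Q : ℝ) ≤ p := by exact_mod_cast hp1.le
              have hp3 : (0 : ℝ) < p := lt_of_lt_of_le hQpos hp2
              rw [norm_mul, Complex.norm_real, Real.norm_of_nonneg (hlogp Q p hp)]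
              refine mul_le_mul_of_nonneg_left ((hb _ (div_pos hX1 hp3)).trans ?_) (hlogp Q p hp)
              gcongr
          _ = (∑ p ∈ PM χ m Q, Real.log p) * (C * (X / Q)) := by rw [Finset.sum_mul]
          _ ≤ (|C'| * Q) * (C * (X / Q)) := by
              refine mul_le_mul_of_nonneg_right ?_ (by positivity)
              refine hsub.trans (((hQ₀ Q hb').2.2.2).trans ?_)
              exact mul_le_mul_of_nonneg_right (le_abs_self _) hQpos.le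
          _ = C * |C'| * X := by field_simp
      rw [e1, norm_mul, norm_div, norm_one, Complex.norm_natCast]
      have e3 := norm_sub_le
        (∑ p ∈ PM χ m Q, ((Real.log p * ((p : ℝ) + 1) : ℝ) : ℂ) * A ((X : ℝ) / p))
        (∑ p ∈ PM χ m Q, (Real.log p : ℂ) * A ((X : ℝ) / p))
      have e4 : 1 / (X : ℝ) * (1 / (X : ℝ) *
          ‖∑ p ∈ PM χ m Q, ((Real.log p * ((p : ℝ) + 1) : ℝ) : ℂ) * A ((X : ℝ) / p) -
            ∑ p ∈ PM χ m Q, (Real.log p : ℂ) * A ((X : ℝ) / p)‖) ≤ 1 / (X : ℝ) * (1 / (X : ℝ) *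
          (‖∑ p ∈ PM χ m Q, ((Real.log p * ((p : ℝ) + 1) : ℝ) : ℂ) * A ((X : ℝ) / p)‖ +
            C * |C'| * X)) := by
        have h0 : 0 ≤ 1 / (X : ℝ) := by positivity
        exact mul_le_mul_of_nonneg_left (mul_le_mul_of_nonneg_left (e3.trans (by linarith)) h0) h0
      refine e4.trans (le_of_eq ?_)
      field_simp
    have hfin : ∑ X ∈ Icc 1 N', 1 / (X : ℝ) * ‖∑ p ∈ PM χ m Q, (Real.log p : ℂ) *
        aa A ((X : ℝ) / p)‖ ≤ η * Q * Real.log N' := by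
      calc ∑ X ∈ Icc 1 N', 1 / (X : ℝ) * ‖∑ p ∈ PM χ m Q, (Real.log p : ℂ) * aa A ((X : ℝ) / p)‖
        ≤ ∑ X ∈ Icc 1 N', (1 / (X : ℝ) ^ 2 *
          ‖∑ p ∈ PM χ m Q, ((Real.log p * ((p : ℝ) + 1) : ℝ) : ℂ) * A ((X : ℝ) / p)‖ +
            C * |C'| * (1 / (X : ℝ))) :=
          Finset.sum_le_sum fun X hX => hsum X (Finset.mem_Icc.1 hX).1
      _ = ∑ X ∈ Icc 1 N', 1 / (X : ℝ) ^ 2 *
          ‖∑ p ∈ PM χ m Q, ((Real.log p * ((p : ℝ) + 1) : ℝ) : ℂ) * A ((X : ℝ) / p)‖ +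
            C * |C'| * ∑ X ∈ Icc 1 N', 1 / (X : ℝ) := by
          rw [Finset.sum_add_distrib, ← Finset.mul_sum]
      _ ≤ η / 2 * Q * Real.log N' + C * |C'| * (1 + Real.log N') := by
          have h0 : 0 ≤ C * |C'| := by positivity
          exact add_le_add hQ3 (mul_le_mul_of_nonneg_left (harm_le N') h0)
      _ ≤ η * Q * Real.log N' := by
          have h0 : 0 ≤ C * |C'| := by positivity
          have h4 : 4 * (C * |C'|) ≤ η * Q := by
            rw [div_le_iff₀ hη] at hT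
            have h5 : (T : ℝ) ≤ Q := by exact_mod_cast hc''
            calc 4 * (C * |C'|) ≤ T * η := hT
              _ ≤ Q * η := by gcongr
              _ = η * Q := mul_comm _ _
          have h5 : C * |C'| * (1 + Real.log N') ≤ C * |C'| * (2 * Real.log N') := by
            apply mul_le_mul_of_nonneg_left _ h0
            linarith
          have h6 : 4 * (C * |C'|) * Real.log N' ≤ η * Q * Real.log N' := by
            apply mul_le_mul_of_nonneg_right h4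
            linarith
          linarith
    have hWn : ∀ X : ℕ, ‖∑ p ∈ PM χ m Q, ((D * Real.log p : ℝ) : ℂ) * aa A ((X : ℝ) / p)‖ =
        D * ‖∑ p ∈ PM χ m Q, (Real.log p : ℂ) * aa A ((X : ℝ) / p)‖ := by
      intro X
      have e : ∑ p ∈ PM χ m Q, ((D * Real.log p : ℝ) : ℂ) * aa A ((X : ℝ) / p) =
          (D : ℂ) * ∑ p ∈ PM χ m Q, (Real.log p : ℂ) * aa A ((X : ℝ) / p) := by
        rw [mul_sum]
        refine sum_congr rfl fun p _ => ?_
        push_cast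
        ring
      rw [e, norm_mul, Complex.norm_real, Real.norm_of_nonneg hD0.le]
    have hfin2 : ∑ X ∈ Icc 1 N', 1 / (X : ℝ) * ‖∑ p ∈ PM χ m Q, ((D * Real.log p : ℝ) : ℂ) *
        aa A ((X : ℝ) / p)‖ = D * ∑ X ∈ Icc 1 N', 1 / (X : ℝ) * ‖∑ p ∈ PM χ m Q,
        (Real.log p : ℂ) * aa A ((X : ℝ) / p)‖ := by
      rw [mul_sum]
      refine sum_congr rfl fun X _ => ?_
      rw [hWn X]
      ring
    beta_reduce
    rw [hfin2]
    have h7 := mul_le_mul_of_nonneg_left hfin hD0.le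
    have h8 : D * (η * Q * Real.log N') = η₀ * Q * Real.log N' := by
      rw [hηd]
      field_simp
    rwa [h8] at h7

end Pool.Agent.N912.PM
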