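import Pool.Agent.N912.PM.Gp
import Pool.Agent.N912.PM.Cls
import Pool.Agent.V11296.CV5

/-!
Project PM (helper912), part 9: the class vectors of the factors of `n^2+tn+c`.
-/

set_option autoImplicit false

namespace Pool.Agent.N912.PM

open Finset Filter
open Pool.Agent.W78.GA (Qd nm nm_cast nm_mul nm_pos mul_star_self' prim prim_iff prim_of_dvd
  prim_star prim_ne_zero)
open Pool.Agent.W78.EG
open Pool.Agent.W251.EG
open Pool.Agent.V11296.CV (Df Ez chpow chnrm cv F_mod F_cop)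
open Pool.Agent.V11296.CW (Gw apdw val_prim split_prim wd cw cw_mono)

section

variable {A B : Type} [AddCommGroup A] [AddCommGroup B] {t c m : ℕ}

theorem gw_map {E : ℤ → ℤ → A} {H : ℕ → A} (h : Gw t c m E H) (φ : A →+ B) :
    Gw t c m (fun x y => φ (E x y)) (fun n => φ (H n)) where
  pos := h.pos
  add := fun x y hx hy => by rw [h.add x y hx hy, map_add]
  per := fun x y u v h1 h2 => by rw [h.per x y u v h1 h2]
  val := fun x y p hp hpm hxy => by rw [h.val x y p hp hpm hxy]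

theorem df_map (E : ℤ → ℤ → A) (φ : A →+ B) :
    Df t c m (fun x y => φ (E x y)) = (Df t c m E).map φ := by
  unfold Df
  rw [AddMonoidHom.map_closure]
  congr 1
  ext g
  constructor
  · rintro ⟨x, y, u, v, h1, h2, rfl⟩
    exact ⟨_, ⟨x, y, u, v, h1, h2, rfl⟩, by rw [map_sub, map_add]⟩
  · rintro ⟨_, ⟨x, y, u, v, h1, h2, rfl⟩, rfl⟩
    exact ⟨x, y, u, v, h1, h2, by rw [map_sub, map_add]⟩

variable {f : ℕ} {χ : DirichletCharacter ℂ f}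

/-- class-determined functions -/
theorem gg_of_gw [Finite A] (hF : Fd (t : ℤ) (c : ℤ) f χ) {E₁ E₂ : ℤ → ℤ → A} {H₁ H₂ : ℕ → A}
    (h₁ : Gw t c m E₁ H₁) (h₂ : Gw t c m E₂ H₂) {τ : A}
    (ht : ∀ p : ℕ, p.Prime → p ≡ 1 [MOD m] → H₁ p + H₂ p = τ) :
    Gg t c χ m τ (Df t c m E₁ ⊔ Df t c m E₂) H₁ H₂ where
  mod := h₁.pos
  add₁ := h₁.add
  add₂ := h₂.add
  two := fun p hp _ h1 => ht p hp h1
  apd := by
    rintro ψ ⟨d, hd, hd1⟩
    by_cases h3 : ∃ d ∈ Df t c m E₁, ψ d ≠ 1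
    · exact Or.inl (apdw hF h₁ ψ h3)
    · right
      refine apdw hF h₂ ψ ?_
      push Not at h3
      obtain ⟨x, hx, y, hy, rfl⟩ := AddSubgroup.mem_sup.1 hd
      refine ⟨y, hy, fun h4 => hd1 ?_⟩
      rw [AddChar.map_add_eq_mul, h3 x hx, h4, one_mul]

theorem sup_prod {A₁ : Type} [AddCommGroup A₁] (D : AddSubgroup A₁) :
    D.map (AddMonoidHom.inl A₁ A₁) ⊔ D.map (AddMonoidHom.inr A₁ A₁) = D.prod D := by
  refine le_antisymm ?_ ?_
  · refine sup_le ?_ ?_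
    · rintro _ ⟨x, hx, rfl⟩
      exact AddSubgroup.mem_prod.2 ⟨hx, D.zero_mem⟩
    · rintro _ ⟨x, hx, rfl⟩
      exact AddSubgroup.mem_prod.2 ⟨D.zero_mem, hx⟩
  · rintro ⟨x, y⟩ h
    obtain ⟨h1, h2⟩ := AddSubgroup.mem_prod.1 h
    refine AddSubgroup.mem_sup.2 ⟨(x, 0), ⟨x, h1, rfl⟩, (0, y), ⟨y, h2, rfl⟩, ?_⟩
    rw [Prod.mk_add_mk, add_zero, zero_add]

end

section

variable {t c : ℕ} {f : ℕ} {χ : DirichletCharacter ℂ f} {m k : ℕ}

theorem cvec_dg (hF : Fd (t : ℤ) (c : ℤ) f χ) (hm : 1 ≤ m) {z : Qd (t : ℤ) (c : ℤ)}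
    (hz : prim z) (hzm : (nm z).Coprime m) {u : (ZMod m)ˣ} (hu : ((nm z : ℕ) : ZMod m) = u) :
    u ∈ NG t c m ∧ cvec m k (nm z) - Pi.single u 1 ∈ DG (NG t c m) k := by
  have hD := hDG hF
  have h0 : ((z.re ^ 2 + t * z.re * z.im + c * z.im ^ 2 : ℤ) : ZMod m) = (u : ZMod m) := by
    rw [← nm_cast hD z, ← hu]
    simp
  refine ⟨⟨z.re, z.im, h0⟩, ?_⟩
  have h1 := val_prim hF (gw_cvec (t := t) (c := c) (k := k) hm) (nm z) z hz rfl hzm
  rw [df_eq hm] at h1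
  have h2 : Ez (Ev t c m k) z = Pi.single u 1 := Ev_single h0
  rwa [h2] at h1

/-- the factors of the values are norms of primitive elements -/
theorem split_F (hF : Fd (t : ℤ) (c : ℤ) f χ) {n d e : ℕ} (hde : d * e = n ^ 2 + t * n + c) :
    ∃ z w : Qd (t : ℤ) (c : ℤ), prim z ∧ prim w ∧ nm z = d ∧ nm w = e := by
  have hD := hDG hF
  have hc := c_pos hF
  have hpr : prim (⟨(n : ℤ), 1⟩ : Qd (t : ℤ) (c : ℤ)) := by
    unfold prim
    simp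
  have hnm : nm (⟨(n : ℤ), 1⟩ : Qd (t : ℤ) (c : ℤ)) = d * e := by
    have h2 : ((nm (⟨(n : ℤ), 1⟩ : Qd (t : ℤ) (c : ℤ)) : ℕ) : ℤ) = ((d * e : ℕ) : ℤ) := by
      rw [nm_cast hD, hde]
      push_cast
      ring
    exact_mod_cast h2
  obtain ⟨z, w, hzw, hz⟩ := split_prim hF d _ hpr (hnm ▸ Dvd.intro _ rfl)
  have hpos := fpos (t := t) hc n
  have hd0 : 0 < d := Nat.pos_of_dvd_of_pos (Dvd.intro _ hde) hpos
  have hw : nm w = e := by
    have h4 : d * nm w = d * e := by rw [← hz, ← nm_mul, ← hzw, hnm, hz]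
    exact Nat.eq_of_mul_eq_mul_left hd0 h4
  exact ⟨z, w, prim_of_dvd hpr ⟨w, hzw⟩, prim_of_dvd hpr ⟨z, by rw [hzw, mul_comm]⟩, hz, hw⟩

/-- the class vectors of the factors -/
theorem cvec_fac (hF : Fd (t : ℤ) (c : ℤ) f χ) (hm : 1 ≤ m) {n d e : ℕ}
    (hde : d * e = n ^ 2 + t * n + c) (hc : d.Coprime m) {u : (ZMod m)ˣ}
    (hu : (d : ZMod m) = u) : u ∈ NG t c m ∧ cvec m k d - Pi.single u 1 ∈ DG (NG t c m) k := by
  obtain ⟨z, w, hz, _, hzd, _⟩ := split_F hF hde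
  have h := cvec_dg (k := k) hF hm hz (by rw [hzd]; exact hc) (u := u) (by rw [hzd]; exact hu)
  rwa [hzd] at h

theorem adm_base {G : Subgroup (ZMod m)ˣ} [NeZero m] {u : (ZMod m)ˣ}
    {w : (ZMod m)ˣ → ZMod k} (h : Adm G k u w) : u ∈ G := by
  obtain ⟨v, h1, h2, _⟩ := h
  rw [← h2]
  refine G.prod_mem fun a _ => ?_
  by_cases ha : a ∈ G
  · exact G.pow_mem ha _
  · rw [h1 a ha, pow_zero]
    exact G.one_mem

/-- the class vectors of the factors are admissible -/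
theorem adm_fac (hF : Fd (t : ℤ) (c : ℤ) f χ) (hm : 1 ≤ m) [NeZero m] (hk : 1 ≤ k) {n d e : ℕ}
    (hde : d * e = n ^ 2 + t * n + c) (hc : d.Coprime m) {u : (ZMod m)ˣ}
    (hu : (d : ZMod m) = u) : Adm (NG t c m) k u (cvec m k d) := by
  obtain ⟨h1, h2⟩ := cvec_fac (k := k) hF hm hde hc hu
  exact (adm_iff hk h1 _).2 h2

/-- the two vectors -/
def V1 (m k n : ℕ) : ((ZMod m)ˣ → ZMod k) × ((ZMod m)ˣ → ZMod k) :=
  AddMonoidHom.inl _ _ (cvec m k n)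

/-- the two vectors -/
def V2 (m k n : ℕ) : ((ZMod m)ˣ → ZMod k) × ((ZMod m)ˣ → ZMod k) :=
  AddMonoidHom.inr _ _ (cvec m k n)

theorem V_add (x y : ℕ) : V1 m k x + V2 m k y = (cvec m k x, cvec m k y) := by
  unfold V1 V2
  rw [AddMonoidHom.inl_apply, AddMonoidHom.inr_apply, Prod.mk_add_mk, add_zero, zero_add]

theorem cvec_one_mod {p : ℕ} (hp : p.Prime) (h : p ≡ 1 [MOD m]) :
    cvec m k p = Pi.single 1 1 := by
  refine cvec_prime hp ?_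
  rw [Units.val_one, ← Nat.cast_one]
  exact (ZMod.natCast_eq_natCast_iff _ _ _).2 h

theorem gg_pair (hF : Fd (t : ℤ) (c : ℤ) f χ) (hm : 1 ≤ m) [NeZero m] [NeZero k] :
    Gg t c χ m ((Pi.single 1 1, Pi.single 1 1) : ((ZMod m)ˣ → ZMod k) × ((ZMod m)ˣ → ZMod k))
      ((DG (NG t c m) k).prod (DG (NG t c m) k)) (V1 m k) (V2 m k) := by
  have h1 := gw_map (gw_cvec (t := t) (c := c) (k := k) hm)
    (AddMonoidHom.inl ((ZMod m)ˣ → ZMod k) ((ZMod m)ˣ → ZMod k))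
  have h2 := gw_map (gw_cvec (t := t) (c := c) (k := k) hm)
    (AddMonoidHom.inr ((ZMod m)ˣ → ZMod k) ((ZMod m)ˣ → ZMod k))
  have h3 := gg_of_gw (τ := ((Pi.single 1 1, Pi.single 1 1) :
    ((ZMod m)ˣ → ZMod k) × ((ZMod m)ˣ → ZMod k))) hF h1 h2 (fun p hp h4 => by
      have h5 := V_add (m := m) (k := k) p p
      unfold V1 V2 at h5
      rw [h5, cvec_one_mod hp h4])
  rw [df_map, df_map, df_eq hm, sup_prod] at h3
  exact h3

/-- the same function for both factors -/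
theorem gg_same (hF : Fd (t : ℤ) (c : ℤ) f χ) (hm : 1 ≤ m) [NeZero m] [NeZero k] :
    Gg t c χ m ((Pi.single 1 1 + Pi.single 1 1) : (ZMod m)ˣ → ZMod k)
      (DG (NG t c m) k) (cvec m k) (cvec m k) := by
  have h1 := gw_cvec (t := t) (c := c) (k := k) hm
  have h3 := gg_of_gw (τ := (Pi.single 1 1 + Pi.single 1 1 : (ZMod m)ˣ → ZMod k)) hF h1 h1
    (fun p hp h4 => by rw [cvec_one_mod hp h4])
  rw [df_eq hm, sup_idem] at h3
  exact h3

theorem adp_pair (hF : Fd (t : ℤ) (c : ℤ) f χ) (hm : 1 ≤ m) [NeZero m] (hk : 1 ≤ k)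
    {q a r : ℕ} (hmq : m ∣ q) (ha : (a ^ 2 + t * a + c).Coprime m) {u₁ u₂ : (ZMod m)ˣ}
    (hr : (r : ZMod m) = u₁) (hu : ((a ^ 2 + t * a + c : ℕ) : ZMod m) = u₁ * u₂)
    {w₁ w₂ : (ZMod m)ˣ → ZMod k} (h₁ : Adm (NG t c m) k u₁ w₁) (h₂ : Adm (NG t c m) k u₂ w₂) :
    Adp t c q a r ((DG (NG t c m) k).prod (DG (NG t c m) k)) (V1 m k) (V2 m k) (w₁, w₂) := by
  intro n d e hn hd hde
  have hcop := F_cop hmq hn ha
  rw [← hde] at hcop
  have hdm : d.Coprime m := Nat.Coprime.coprime_dvd_left (Dvd.intro _ rfl) hcop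
  have hem : e.Coprime m := Nat.Coprime.coprime_dvd_left (Dvd.intro_left _ rfl) hcop
  have hd1 : (d : ZMod m) = u₁ := by
    rw [← hr]
    exact (ZMod.natCast_eq_natCast_iff _ _ _).2 (hd.of_dvd hmq)
  have he1 : (e : ZMod m) = u₂ := by
    have h3 : ((d * e : ℕ) : ZMod m) = u₁ * u₂ := by
      rw [← hu, hde]
      exact (ZMod.natCast_eq_natCast_iff _ _ _).2 (F_mod hmq hn)
    push_cast at h3
    rw [hd1] at h3
    exact u₁.isUnit.mul_left_cancel h3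
  obtain ⟨_, h4⟩ := cvec_fac (k := k) hF hm hde hdm hd1
  obtain ⟨_, h5⟩ := cvec_fac (k := k) hF hm (by rw [mul_comm]; exact hde) hem he1
  have h6 := (adm_iff hk (adm_base h₁) w₁).1 h₁
  have h7 := (adm_iff hk (adm_base h₂) w₂).1 h₂
  rw [V_add]
  refine AddSubgroup.mem_prod.2 ⟨?_, ?_⟩
  · show cvec m k d - w₁ ∈ DG (NG t c m) k
    have := sub_mem h4 h6
    have e1 : cvec m k d - Pi.single u₁ 1 - (w₁ - Pi.single u₁ 1) = cvec m k d - w₁ := by abel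
    rwa [e1] at this
  · show cvec m k e - w₂ ∈ DG (NG t c m) k
    have := sub_mem h5 h7
    have e1 : cvec m k e - Pi.single u₂ 1 - (w₂ - Pi.single u₂ 1) = cvec m k e - w₂ := by abel
    rwa [e1] at this

theorem adq_same (hF : Fd (t : ℤ) (c : ℤ) f χ) (hm : 1 ≤ m) [NeZero m] (hk : 1 ≤ k)
    {q a : ℕ} (hmq : m ∣ q) (ha : (a ^ 2 + t * a + c).Coprime m) {u : (ZMod m)ˣ}
    (hu : ((a ^ 2 + t * a + c : ℕ) : ZMod m) = u)
    {w : (ZMod m)ˣ → ZMod k} (h : Adm (NG t c m) k u w) :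
    Adq t c q a (DG (NG t c m) k) (cvec m k) (cvec m k) w := by
  intro n d e hn hde
  have hc := c_pos hF
  have hpos := fpos (t := t) hc n
  have hcop := F_cop hmq hn ha
  have hd0 : d ≠ 0 := by
    rintro rfl
    rw [zero_mul] at hde
    omega
  have he0 : e ≠ 0 := by
    rintro rfl
    rw [mul_zero] at hde
    omega
  rw [← cvec_mul hd0 he0, hde]
  obtain ⟨_, h4⟩ := cvec_fac (k := k) hF hm (n := n) (d := n ^ 2 + t * n + c) (e := 1)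
    (mul_one _) hcop (u := u) (by
      rw [← hu]
      exact (ZMod.natCast_eq_natCast_iff _ _ _).2 (F_mod hmq hn))
  have h6 := (adm_iff hk (adm_base h) w).1 h
  have := sub_mem h4 h6
  have e1 : cvec m k (n ^ 2 + t * n + c) - Pi.single u 1 - (w - Pi.single u 1) =
      cvec m k (n ^ 2 + t * n + c) - w := by abel
  rwa [e1] at this

theorem card_prod (D : AddSubgroup ((ZMod m)ˣ → ZMod k)) :
    Nat.card (D.prod D) = Nat.card D * Nat.card D := by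
  rw [Nat.card_congr (AddSubgroup.prodEquiv D D).toEquiv, Nat.card_prod]

theorem lt_abs_congr {x A B : ℝ} (h : A = B) : (x < |A|) ↔ (x < |B|) := by rw [h]

open scoped Classical in
/-- joint equidistribution of the class vectors of the two factors -/
theorem outV (hF : Fd (t : ℤ) (c : ℤ) f χ) (hm : 1 ≤ m) (hk : 1 ≤ k)
    {q a r : ℕ} (hq : 1 ≤ q) (hmq : m ∣ q) (ha : (a ^ 2 + t * a + c).Coprime m)
    {u₁ u₂ : (ZMod m)ˣ} (hr : (r : ZMod m) = u₁)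
    (hu : ((a ^ 2 + t * a + c : ℕ) : ZMod m) = u₁ * u₂)
    {w₁ w₂ : (ZMod m)ˣ → ZMod k}
    (h₁ : haveI : NeZero m := ⟨by omega⟩; Adm (NG t c m) k u₁ w₁)
    (h₂ : haveI : NeZero m := ⟨by omega⟩; Adm (NG t c m) k u₂ w₂)
    (s₁ s₂ s₃ s₄ : ℝ) (g1 : 0 ≤ s₁)
    (g2 : s₁ < s₂) (g3 : s₂ ≤ 1) (g4 : 0 ≤ s₃) (g5 : s₃ < s₄) (g6 : s₄ ≤ 1) (ε : ℝ) (hε : 0 < ε) :
    Tendsto (fun N : ℕ => (∑ X ∈ (Icc 1 N).filter (fun X : ℕ => ε * X <
      |∑ n ∈ (range (X + 1)).filter (fun n => 1 ≤ n + t ∧ n ≡ a [MOD q]),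
        ∑ d ∈ wd t c q r s₁ s₂ s₃ s₄ X n,
        ((if cvec m k d = w₁ ∧ cvec m k ((n ^ 2 + t * n + c) / d) = w₂ then (1 : ℝ) else 0) -
          1 / ((Nat.card (DG (NG t c m) k) : ℝ) * Nat.card (DG (NG t c m) k)))|), 1 / (X : ℝ)) /
      Real.log N) atTop (nhds 0) := by
  haveI : NeZero m := ⟨by omega⟩
  haveI : NeZero k := ⟨by omega⟩
  have h := outAll3 hF (gg_pair hF hm (k := k)) (w₁, w₂) q a r hq
    (adp_pair hF hm hk hmq ha hr hu h₁ h₂) s₁ s₂ s₃ s₄ g1 g2 g3 g4 g5 g6 ε hε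
  refine h.congr fun N => ?_
  congr 1
  refine sum_congr ?_ fun _ _ => rfl
  ext X
  rw [mem_filter, mem_filter]
  refine and_congr_right fun _ => ?_
  refine lt_abs_congr (sum_congr rfl fun n _ => sum_congr rfl fun d _ => ?_)
  rw [card_prod, Nat.cast_mul]
  by_cases hc : cvec m k d = w₁ ∧ cvec m k ((n ^ 2 + t * n + c) / d) = w₂
  · have hc' : V1 m k d + V2 m k ((n ^ 2 + t * n + c) / d) = (w₁, w₂) := by
      rw [V_add, Prod.mk.injEq]; exact hc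
    rw [if_pos hc, if_pos hc']
  · have hc' : ¬ V1 m k d + V2 m k ((n ^ 2 + t * n + c) / d) = (w₁, w₂) := by
      rw [V_add, Prod.mk.injEq]; exact hc
    rw [if_neg hc, if_neg hc']

open scoped Classical in
/-- joint equidistribution of the class vectors of the two factors, squarefree values -/
theorem outVsq (hF : Fd (t : ℤ) (c : ℤ) f χ) (hm : 1 ≤ m) (hk : 1 ≤ k)
    {q a r : ℕ} (hq : 1 ≤ q) (hmq : m ∣ q) (ha : (a ^ 2 + t * a + c).Coprime m)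
    {u₁ u₂ : (ZMod m)ˣ} (hr : (r : ZMod m) = u₁)
    (hu : ((a ^ 2 + t * a + c : ℕ) : ZMod m) = u₁ * u₂)
    {w₁ w₂ : (ZMod m)ˣ → ZMod k}
    (h₁ : haveI : NeZero m := ⟨by omega⟩; Adm (NG t c m) k u₁ w₁)
    (h₂ : haveI : NeZero m := ⟨by omega⟩; Adm (NG t c m) k u₂ w₂)
    (s₁ s₂ s₃ s₄ : ℝ) (g1 : 0 ≤ s₁)
    (g2 : s₁ < s₂) (g3 : s₂ ≤ 1) (g4 : 0 ≤ s₃) (g5 : s₃ < s₄) (g6 : s₄ ≤ 1) (ε : ℝ) (hε : 0 < ε) :
    Tendsto (fun N : ℕ => (∑ X ∈ (Icc 1 N).filter (fun X : ℕ => ε * X <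
      |∑ n ∈ (range (X + 1)).filter (fun n => 1 ≤ n + t ∧ n ≡ a [MOD q] ∧
        Squarefree (n ^ 2 + t * n + c)),
        ∑ d ∈ wd t c q r s₁ s₂ s₃ s₄ X n,
        ((if cvec m k d = w₁ ∧ cvec m k ((n ^ 2 + t * n + c) / d) = w₂ then (1 : ℝ) else 0) -
          1 / ((Nat.card (DG (NG t c m) k) : ℝ) * Nat.card (DG (NG t c m) k)))|), 1 / (X : ℝ)) /
      Real.log N) atTop (nhds 0) := by
  haveI : NeZero m := ⟨by omega⟩
  haveI : NeZero k := ⟨by omega⟩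
  have h := outSq3 hF (gg_pair hF hm (k := k)) (w₁, w₂) q a r hq
    (adp_pair hF hm hk hmq ha hr hu h₁ h₂) s₁ s₂ s₃ s₄ g1 g2 g3 g4 g5 g6 ε hε
  refine h.congr fun N => ?_
  congr 1
  refine sum_congr ?_ fun _ _ => rfl
  ext X
  rw [mem_filter, mem_filter]
  refine and_congr_right fun _ => ?_
  refine lt_abs_congr (sum_congr rfl fun n _ => sum_congr rfl fun d _ => ?_)
  rw [card_prod, Nat.cast_mul]
  by_cases hc : cvec m k d = w₁ ∧ cvec m k ((n ^ 2 + t * n + c) / d) = w₂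
  · have hc' : V1 m k d + V2 m k ((n ^ 2 + t * n + c) / d) = (w₁, w₂) := by
      rw [V_add, Prod.mk.injEq]; exact hc
    rw [if_pos hc, if_pos hc']
  · have hc' : ¬ V1 m k d + V2 m k ((n ^ 2 + t * n + c) / d) = (w₁, w₂) := by
      rw [V_add, Prod.mk.injEq]; exact hc
    rw [if_neg hc, if_neg hc']

theorem cw_le_cv (hF : Fd (t : ℤ) (c : ℤ) f χ) (q a : ℕ) (w : (ZMod m)ˣ → ZMod k) (X : ℕ) :
    cw t c q a (cvec m k) (cvec m k) w X ≤ cv t c q a (cvec m k) w X := by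
  classical
  have hc := c_pos hF
  unfold Pool.Agent.V11296.CW.cw cv
  refine card_le_card fun n hn => ?_
  rw [mem_filter] at hn ⊢
  obtain ⟨h1, h2, h3, h4, d, e, _, _, h5, h6⟩ := hn
  have hpos := fpos (t := t) hc n
  refine ⟨h1, h2, h3, h4, ?_⟩
  rw [← h5, cvec_mul, h6]
  · rintro rfl
    rw [zero_mul] at h5
    omega
  · rintro rfl
    rw [mul_zero] at h5
    omega

open scoped Classical in
/-- every admissible vector, at almost all scales -/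
theorem outN (hF : Fd (t : ℤ) (c : ℤ) f χ) (hS : S_SPSc (t : ℤ) (c : ℤ)) (hm : 1 ≤ m)
    (hk : 1 ≤ k) {q a : ℕ} (hq : 1 ≤ q) (hmq : m ∣ q) (ha : (a ^ 2 + t * a + c).Coprime m)
    {u : (ZMod m)ˣ} (hu : ((a ^ 2 + t * a + c : ℕ) : ZMod m) = u)
    {w : (ZMod m)ˣ → ZMod k} (h : haveI : NeZero m := ⟨by omega⟩; Adm (NG t c m) k u w)
    (hqa : ∀ l : ℕ, l.Prime → l ^ 2 ∣ q → ¬ l ^ 2 ∣ a ^ 2 + t * a + c) (ε : ℝ) (hε : 0 < ε) :
    Tendsto (fun Z : ℕ => (∑ X ∈ (Icc 1 Z).filter (fun X : ℕ =>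
      (cv t c q a (cvec m k) w X : ℝ) < (X : ℝ) / Real.log X ^ (Real.log 2 + ε)), 1 / (X : ℝ)) /
      Real.log Z) atTop (nhds 0) := by
  haveI : NeZero m := ⟨by omega⟩
  haveI : NeZero k := ⟨by omega⟩
  have h1 := outCw3 hF hS (gg_same hF hm (k := k)) w q a hq (adq_same hF hm hk hmq ha hu h) hqa ε hε
  refine null_of 0 (fun X _ hlt => lt_of_le_of_lt ?_ hlt) h1
  exact_mod_cast cw_le_cv hF q a w X

/-- every admissible vector, at all large scales -/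
theorem outNall (hF : Fd (t : ℤ) (c : ℤ) f χ) (hS : S_SPSc (t : ℤ) (c : ℤ)) (hm : 1 ≤ m)
    (hk : 1 ≤ k) {q a : ℕ} (hq : 1 ≤ q) (hmq : m ∣ q) (ha : (a ^ 2 + t * a + c).Coprime m)
    {u : (ZMod m)ˣ} (hu : ((a ^ 2 + t * a + c : ℕ) : ZMod m) = u)
    {w : (ZMod m)ˣ → ZMod k} (h : haveI : NeZero m := ⟨by omega⟩; Adm (NG t c m) k u w)
    (hqa : ∀ l : ℕ, l.Prime → l ^ 2 ∣ q → ¬ l ^ 2 ∣ a ^ 2 + t * a + c) (δ : ℝ) (hδ : 0 < δ) :
    ∃ N₀ : ℕ, ∀ N : ℕ, N₀ ≤ N → (N : ℝ) ^ (1 - δ) ≤ cv t c q a (cvec m k) w N := by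
  haveI : NeZero m := ⟨by omega⟩
  haveI : NeZero k := ⟨by omega⟩
  obtain ⟨N₀, h1⟩ := outCwAll3 hF hS (gg_same hF hm (k := k)) w q a hq
    (adq_same hF hm hk hmq ha hu h) hqa δ hδ
  refine ⟨N₀, fun N hN => (h1 N hN).trans ?_⟩
  exact_mod_cast cw_le_cv hF q a w N

end

end Pool.Agent.N912.PM
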